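import Pool.Agent.N656.PC.Dat
import Pool.Agent.R414.DN.Exf

set_option autoImplicit false
set_option linter.unusedSectionVars false

/-! Almost all curves with an integer point are absolutely irreducible. -/

open Filter Topology Finset

namespace Pool.Agent.N656.PC

open Pool.Agent.R414.DN Pool.Agent.R414.DU Pool.Agent.N656.LL

section translate

variable {K : Type} [Field K]

/-- translation -/
noncomputable def trH (p : Fin 2 → K) : MvPolynomial (Fin 2) K →ₐ[K] MvPolynomial (Fin 2) K :=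
  MvPolynomial.aeval fun i => MvPolynomial.X i + MvPolynomial.C (p i)

/-- translation as an equivalence -/
noncomputable def trE (p : Fin 2 → K) : MvPolynomial (Fin 2) K ≃ₐ[K] MvPolynomial (Fin 2) K :=
  AlgEquiv.ofAlgHom (trH p) (trH fun i => -p i)
    (by
      apply MvPolynomial.algHom_ext
      intro i
      simp [trH])
    (by
      apply MvPolynomial.algHom_ext
      intro i
      simp [trH])

lemma trE_apply (p : Fin 2 → K) (F : MvPolynomial (Fin 2) K) : trE p F = trH p F := rfl

lemma tr_irr (p : Fin 2 → K) (F : MvPolynomial (Fin 2) K) :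
    Irreducible (trH p F) ↔ Irreducible F := by
  rw [← trE_apply]
  exact MulEquiv.irreducible_iff (trE p)

lemma tr_const (p : Fin 2 → K) (F : MvPolynomial (Fin 2) K) :
    MvPolynomial.constantCoeff (trH p F) = MvPolynomial.eval p F := by
  induction F using MvPolynomial.induction_on with
  | C a => simp [trH]
  | add f g hf hg => rw [map_add, map_add, hf, hg, map_add]
  | mul_X f i hf => rw [map_mul, map_mul, hf, map_mul]; simp [trH]

lemma tr_pderiv (p : Fin 2 → K) (i : Fin 2) (F : MvPolynomial (Fin 2) K) :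
    MvPolynomial.pderiv i (trH p F) = trH p (MvPolynomial.pderiv i F) := by
  induction F using MvPolynomial.induction_on with
  | C a => simp [trH]
  | add f g hf hg => rw [map_add, map_add, hf, hg, map_add, map_add]
  | mul_X f j hf =>
    rw [map_mul, Derivation.leibniz, hf, Derivation.leibniz, map_add]
    simp only [smul_eq_mul, map_mul]
    congr 2
    by_cases h : i = j
    · subst h
      simp [trH]
    · simp [trH, MvPolynomial.pderiv_X_of_ne (Ne.symm h)]

end translate

/-- an irreducible curve with a nonsingular integer point is absolutely irreducible -/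
lemma abs_irr_at {F : MvPolynomial (Fin 2) ℤ}
    (hF : Irreducible (MvPolynomial.map (Int.castRingHom ℚ) F)) {P : Fin 2 → ℤ}
    (h0 : MvPolynomial.eval P F = 0) (h1 : MvPolynomial.eval P (MvPolynomial.pderiv 0 F) ≠ 0) :
    Irreducible (MvPolynomial.map (Int.castRingHom (AlgebraicClosure ℚ)) F) := by
  obtain ⟨FQ, hFQ⟩ : ∃ FQ, FQ = MvPolynomial.map (Int.castRingHom ℚ) F := ⟨_, rfl⟩
  rw [← hFQ] at hF
  obtain ⟨p, hp⟩ : ∃ p : Fin 2 → ℚ, p = fun i => (P i : ℚ) := ⟨_, rfl⟩
  have hev : ∀ G : MvPolynomial (Fin 2) ℤ,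
      MvPolynomial.eval p (MvPolynomial.map (Int.castRingHom ℚ) G) =
      ((MvPolynomial.eval P G : ℤ) : ℚ) := by
    intro G
    rw [MvPolynomial.eval_map, hp]
    have h2 := MvPolynomial.eval₂_comp_left (Int.castRingHom ℚ) (RingHom.id ℤ) P G
    simp only [RingHomCompTriple.comp_eq] at h2
    exact h2.symm
  have c0 : MvPolynomial.constantCoeff (trH p FQ) = 0 := by
    rw [tr_const, hFQ, hev, h0, Int.cast_zero]
  have c1 : MvPolynomial.constantCoeff (MvPolynomial.pderiv 0 (trH p FQ)) ≠ 0 := by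
    rw [tr_pderiv, tr_const, hFQ, MvPolynomial.pderiv_map, hev]
    exact_mod_cast h1
  have key := @abs_irr (AlgebraicClosure ℚ) _ (AlgebraicClosure.instAlgebra ℚ) _ _
    ((tr_irr p FQ).2 hF) c0 0 c1
  obtain ⟨ι, key⟩ : ∃ ι : ℚ →+* AlgebraicClosure ℚ,
      Irreducible (MvPolynomial.map ι (trH p FQ)) := ⟨_, key⟩
  have hcomm : ∀ G : MvPolynomial (Fin 2) ℚ, MvPolynomial.map ι (trH p G) =
      trH (fun i => ι (p i)) (MvPolynomial.map ι G) := by
    intro G
    induction G using MvPolynomial.induction_on with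
    | C a => simp [trH]
    | add f g hf hg => rw [map_add, map_add, hf, hg, map_add, map_add]
    | mul_X f j hf =>
      rw [map_mul, map_mul, hf, map_mul, map_mul]
      congr 1
      simp [trH]
  rw [hcomm, tr_irr, hFQ, MvPolynomial.map_map] at key
  have h3 : ∀ f g : ℤ →+* AlgebraicClosure ℚ, Irreducible (MvPolynomial.map f F) →
      Irreducible (MvPolynomial.map g F) := by
    intro f g h
    rw [Subsingleton.elim g f]
    exact h
  exact h3 _ _ key

/-- polynomials with a zero at a given point that is also a zero of the derivative -/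
lemma card_sing {d H : ℕ} (hd : 1 ≤ d) (P : ℤ × ℤ) (S : Finset (Cf d)) (hS : S ⊆ ibox ↥(I d) H)
    (hz : ∀ a ∈ S, Fv (co a) d P.1 P.2 = 0 ∧
      MvPolynomial.eval ![P.1, P.2] (MvPolynomial.pderiv 0 (poly a)) = 0) :
    S.card ≤ (2 * H + 1) ^ (MM d - 2) := by
  classical
  have h00 : (0, 0) ∈ I d := by rw [mem_I]; exact ⟨Nat.zero_le _, le_rfl⟩
  have h11 : (1, 1) ∈ I d := by rw [mem_I]; exact ⟨hd, le_rfl⟩
  have hne : (⟨(0, 0), h00⟩ : ↥(I d)) ≠ ⟨(1, 1), h11⟩ := by
    intro h
    have h3 := congrArg (fun p : ↥(I d) => p.1.2) h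
    exact zero_ne_one h3
  have key := card_fiber (H := H) (S := S) hS {⟨(0, 0), h00⟩, ⟨(1, 1), h11⟩} 1 ?_
  · rw [card_pair hne, one_mul] at key
    exact key
  intro b T hT hTb
  rw [card_le_one]
  intro a ha a' ha'
  have hag : ∀ p : ↥(I d), p ≠ ⟨(0, 0), h00⟩ → p ≠ ⟨(1, 1), h11⟩ → a p = a' p := by
    intro p hp1 hp2
    have hpJ : p ∉ ({⟨(0, 0), h00⟩, ⟨(1, 1), h11⟩} : Finset ↥(I d)) := by
      rw [mem_insert, mem_singleton]
      tauto
    rw [hTb a ha p hpJ, hTb a' ha' p hpJ]
  have e1 : poly a = poly a' + (MvPolynomial.C (co a 0 0 - co a' 0 0) +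
      MvPolynomial.C (co a 1 1 - co a' 1 1) * MvPolynomial.X 0) := by
    ext m
    rw [MvPolynomial.coeff_add, MvPolynomial.coeff_add, coeff_poly, coeff_poly,
      MvPolynomial.coeff_C, MvPolynomial.coeff_C_mul, MvPolynomial.coeff_X]
    by_cases hm0 : m = 0
    · subst hm0
      simp
    · by_cases hm1 : m = Finsupp.single 0 1
      · rw [if_neg (Ne.symm hm0), if_pos hm1.symm, hm1]
        simp
      · rw [if_neg (Ne.symm hm0), if_neg (Ne.symm hm1), mul_zero, add_zero, add_zero]
        by_cases hmem : (m 0 + m 1, m 0) ∈ I d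
        · rw [co_of_mem a hmem, co_of_mem a' hmem]
          apply hag
          · intro h
            apply hm0
            have h2 := congrArg (fun p : ↥(I d) => p.1) h
            simp only [Prod.mk.injEq] at h2
            ext i
            fin_cases i
            · simpa using h2.2
            · have : m 1 = 0 := by omega
              simpa using this
          · intro h
            apply hm1
            have h2 := congrArg (fun p : ↥(I d) => p.1) h
            simp only [Prod.mk.injEq] at h2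
            ext i
            fin_cases i
            · simpa using h2.2
            · have : m 1 = 0 := by omega
              simpa using this
        · unfold co
          rw [dif_neg hmem, dif_neg hmem]
  obtain ⟨f1, f2⟩ := hz a (hT ha)
  obtain ⟨g1, g2⟩ := hz a' (hT ha')
  rw [← eval_poly] at f1 g1
  rw [e1, map_add, map_add, g2, zero_add] at f2
  have f3 : co a 1 1 - co a' 1 1 = 0 := by
    simpa using f2
  rw [e1, map_add, g1, zero_add, f3] at f1
  have f4 : co a 0 0 - co a' 0 0 = 0 := by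
    simpa using f1
  rw [co_of_mem a h11, co_of_mem a' h11] at f3
  rw [co_of_mem a h00, co_of_mem a' h00] at f4
  funext p
  by_cases hp1 : p = ⟨(0, 0), h00⟩
  · rw [hp1]
    linarith
  · by_cases hp2 : p = ⟨(1, 1), h11⟩
    · rw [hp2]
      linarith
    · exact hag p hp1 hp2

/-- the number of the polynomials with a zero that are not absolutely irreducible -/
noncomputable def NR (d H : ℕ) : ℝ :=
  (Set.ncard {a | a ∈ ibox ↥(I d) H ∧ (∃ P : ℤ × ℤ, Fv (co a) d P.1 P.2 = 0) ∧
    ¬ Irreducible (MvPolynomial.map (Int.castRingHom (AlgebraicClosure ℚ)) (poly a))} : ℝ)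

/-- **Almost all are absolutely irreducible.** -/
theorem irr_rare {d : ℕ} (hd : 7 ≤ d) (hRED : S_RED) (hGAH : S_GAH) :
    Tendsto (fun H : ℕ => NR d H / (H : ℝ) ^ (MM d - 1)) atTop (𝓝 0) := by
  classical
  obtain ⟨D, hD⟩ : ∃ D, D = dat0 hd hRED hGAH := ⟨_, rfl⟩
  have hn : D.n = MM d - 1 := by
    have h4 : D.n = Fintype.card (J (d + 1)) := by rw [hD]; rfl
    have := card_J d
    rw [h4]
    omega
  obtain ⟨CR, hCR0, hRed⟩ := hRED d (by omega)
  rw [Metric.tendsto_nhds]
  intro η hη
  obtain ⟨T, hT⟩ := D.exists_T (by positivity : 0 < η / 4)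
  have ht := D.tail_eventually T (by positivity : 0 < η / 4)
  have hMd := MM_pos d
  have hp : ∀ᶠ H : ℕ in atTop, ((bx T).card + CR + 1) *
      ((2 * (H : ℝ) + 1) ^ (MM d - 1 - 1) / (H : ℝ) ^ (MM d - 1)) ≤ η / 4 := by
    have h1 := (Data.pow_lim' (n := MM d - 1) (by omega)).const_mul ((bx T).card + CR + 1)
    rw [mul_zero] at h1
    exact h1.eventually (eventually_le_nhds (by positivity))
  rw [hn] at ht hT
  filter_upwards [ht, hp, eventually_ge_atTop 1] with H h1 h2 hH1
  have hH0 : (0 : ℝ) < H := by exact_mod_cast hH1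
  have hXp : (0 : ℝ) < (H : ℝ) ^ (MM d - 1) := by positivity
  have h3 : NR d H ≤ D.N (Data.big T) H + ((bx T).card + CR + 1) *
      (2 * (H : ℝ) + 1) ^ (MM d - 1 - 1) := by
    obtain ⟨B, hB⟩ : ∃ B, B = (ibox ↥(I d) H).filter fun a =>
      ∃ P : ℤ × ℤ, T < sz P ∧ Fv (co a) d P.1 P.2 = 0 := ⟨_, rfl⟩
    obtain ⟨S1, hS1⟩ : ∃ S1, S1 = (ibox ↥(I d) H).filter fun a => ∀ i, co a d i = 0 := ⟨_, rfl⟩
    obtain ⟨S2, hS2⟩ : ∃ S2, S2 = (ibox ↥(I d) H).filter fun a => (∃ i, co a d i ≠ 0) ∧
      ¬ Irreducible (MvPolynomial.map (Int.castRingHom ℚ) (poly a)) := ⟨_, rfl⟩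
    obtain ⟨S3, hS3⟩ : ∃ S3 : ℤ × ℤ → Finset (Cf d), S3 = fun P =>
      (ibox ↥(I d) H).filter fun a => Fv (co a) d P.1 P.2 = 0 ∧
      MvPolynomial.eval ![P.1, P.2] (MvPolynomial.pderiv 0 (poly a)) = 0 := ⟨_, rfl⟩
    have hsub : {a | a ∈ ibox ↥(I d) H ∧ (∃ P : ℤ × ℤ, Fv (co a) d P.1 P.2 = 0) ∧
        ¬ Irreducible (MvPolynomial.map (Int.castRingHom (AlgebraicClosure ℚ)) (poly a))} ⊆
        ((B ∪ (S1 ∪ (S2 ∪ (bx T).biUnion S3)) : Finset (Cf d)) : Set (Cf d)) := by
      rintro a ⟨ha, ⟨P, hP⟩, hirr⟩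
      rw [mem_coe, hB, hS1, hS2, hS3]
      simp only [mem_union, mem_filter, mem_biUnion]
      by_cases c1 : T < sz P
      · exact Or.inl ⟨ha, P, c1, hP⟩
      by_cases c2 : ∀ i, co a d i = 0
      · exact Or.inr (Or.inl ⟨ha, c2⟩)
      push Not at c2
      by_cases c3 : Irreducible (MvPolynomial.map (Int.castRingHom ℚ) (poly a))
      swap
      · exact Or.inr (Or.inr (Or.inl ⟨ha, c2, c3⟩))
      right; right; right
      refine ⟨P, mem_bx.2 (not_lt.1 c1), ha, hP, ?_⟩
      by_contra c4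
      apply hirr
      apply abs_irr_at c3 (P := ![P.1, P.2]) _ c4
      rw [eval_poly]
      exact hP
    have c0 := Set.ncard_le_ncard hsub (finite_toSet _)
    rw [Set.ncard_coe_finset] at c0
    have c1 := c0.trans ((card_union_le _ _).trans (add_le_add le_rfl
      ((card_union_le _ _).trans (add_le_add le_rfl
      ((card_union_le _ _).trans (add_le_add le_rfl card_biUnion_le))))))
    have c1' : NR d H ≤ (B.card : ℝ) + ((S1.card : ℝ) + ((S2.card : ℝ) +
        ∑ P ∈ bx T, ((S3 P).card : ℝ))) := by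
      unfold NR
      exact_mod_cast c1
    have b0 : (B.card : ℝ) = D.N (Data.big T) H := by
      rw [hD]
      unfold Data.N
      rw [← Set.ncard_coe_finset, hB]
      congr 2
      ext a
      simp only [coe_filter, Set.mem_ofPred_eq]
      constructor
      · rintro ⟨h3, P, h4, h5⟩
        exact ⟨h3, P, h4, h5⟩
      · rintro ⟨h3, P, h4, h5⟩
        exact ⟨h3, P, h4, h5⟩
    obtain ⟨Z, hZ⟩ : ∃ Z : ℝ, Z = (2 * (H : ℝ) + 1) ^ (MM d - 1 - 1) := ⟨_, rfl⟩
    rw [← hZ]
    have e2 : MM d - 1 - 1 = MM d - 2 := by omega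
    have b1 : (S1.card : ℝ) ≤ Z := by
      have h1 := card_zero_form S1 (by rw [hS1]; exact filter_subset _ _)
        (by intro a ha; rw [hS1] at ha; exact (mem_filter.1 ha).2)
      have h2 : (S1.card : ℝ) ≤ (2 * (H : ℝ) + 1) ^ (MM d - (d + 1)) := by exact_mod_cast h1
      refine h2.trans ?_
      rw [hZ]
      exact pow_le_pow_right₀ (by linarith) (by omega)
    have b2 : (S2.card : ℝ) ≤ CR * Z := by
      have h1 := hRed H hH1 S2 (by rw [hS2]; exact filter_subset _ _)
        (by intro a ha; rw [hS2] at ha; exact (mem_filter.1 ha).2)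
      rw [hZ, e2]
      exact h1
    have b3 : ∑ P ∈ bx T, ((S3 P).card : ℝ) ≤ (bx T).card * Z := by
      rw [← nsmul_eq_mul]
      apply sum_le_card_nsmul
      intro P _
      have h1 := card_sing (by omega : 1 ≤ d) P (S3 P) (by rw [hS3]; exact filter_subset _ _)
        (by intro a ha; rw [hS3] at ha; exact (mem_filter.1 ha).2)
      rw [hZ, e2]
      exact_mod_cast h1
    rw [← b0]
    linarith
  have h4 : NR d H / (H : ℝ) ^ (MM d - 1) ≤ D.N (Data.big T) H / (H : ℝ) ^ (MM d - 1) +
      ((bx T).card + CR + 1) *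
      ((2 * (H : ℝ) + 1) ^ (MM d - 1 - 1) / (H : ℝ) ^ (MM d - 1)) := by
    rw [← mul_div_assoc, ← add_div]
    gcongr
  have h5 : 0 ≤ NR d H / (H : ℝ) ^ (MM d - 1) := by
    apply div_nonneg _ hXp.le
    unfold NR
    positivity
  rw [Real.dist_eq, sub_zero, abs_of_nonneg h5]
  linarith

end Pool.Agent.N656.PC
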