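import Pool.Agent.N656.PC.Stm

set_option autoImplicit false
set_option linter.unusedSectionVars false

/-! Small values of a linear function modulo one. -/

open Finset

namespace Pool.Agent.N656.PC

open Pool.Agent.R414.DN Pool.Agent.R414.DS

theorem t_BLK : S_BLK := by
  intro t c δ L q p hδ hq hqL hcop ht A N hN
  classical
  have hq0 : (0 : ℝ) < q := by exact_mod_cast hq
  have hqz : (0 : ℤ) < q := by exact_mod_cast hq
  have hL0 : (0 : ℝ) < L := by
    have : 0 < L := by omega
    exact_mod_cast this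
  have hqL' : (q : ℝ) ≤ L := by exact_mod_cast hqL
  obtain ⟨θ, hθ⟩ : ∃ θ : ℝ, θ = t - p / q := ⟨_, rfl⟩
  rw [← hθ] at ht
  have htθ : t = p / q + θ := by rw [hθ]; ring
  choose! hnA u hu using hN
  -- blocks
  have hblk : ∀ b ∈ N.image (fun n => (n - A) / q),
      ((N.filter fun n => (n - A) / q = b).card : ℝ) ≤ 2 * (q * δ + 1) + 1 := by
    intro b _
    obtain ⟨n₀, hn₀⟩ : ∃ n₀ : ℤ, n₀ = A + b * q := ⟨_, rfl⟩
    have hinj : Set.InjOn (fun n => u n * q + n * p)
        (N.filter fun n => (n - A) / q = b : Set ℤ) := by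
      intro n hn n' hn' h
      rw [mem_coe, mem_filter] at hn hn'
      simp only at h
      have h1 : (n - n') * p = (u n' - u n) * q := by linear_combination h
      have h2 : (q : ℤ) ∣ n - n' := by
        apply hcop.symm.dvd_of_dvd_mul_right
        rw [h1]
        exact dvd_mul_left _ _
      have h3 := Int.emod_add_mul_ediv (n - A) q
      have h4 := Int.emod_add_mul_ediv (n' - A) q
      rw [hn.2] at h3
      rw [hn'.2] at h4
      have h5 := Int.emod_nonneg (n - A) hqz.ne'
      have h6 := Int.emod_lt_of_pos (n - A) hqz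
      have h7 := Int.emod_nonneg (n' - A) hqz.ne'
      have h8 := Int.emod_lt_of_pos (n' - A) hqz
      have h9 : |n - n'| < q := by
        rw [abs_lt]
        constructor <;> linarith
      have h10 := Int.eq_zero_of_abs_lt_dvd h2 h9
      linarith
    rw [← card_image_of_injOn hinj]
    apply int_window (by positivity) (c := -(q * (c + n₀ * θ)))
    intro m hm
    rw [mem_image] at hm
    obtain ⟨n, hn, rfl⟩ := hm
    rw [mem_filter] at hn
    have h3 := Int.emod_add_mul_ediv (n - A) q
    rw [hn.2] at h3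
    have h5 := Int.emod_nonneg (n - A) hqz.ne'
    have h6 := Int.emod_lt_of_pos (n - A) hqz
    have e1 : (((u n * q + n * p : ℤ) : ℝ) - -(q * (c + n₀ * θ))) =
        q * ((u n : ℝ) + n * t + c) - q * (((n - n₀ : ℤ) : ℝ) * θ) := by
      rw [htθ]
      push_cast
      field_simp
      ring
    rw [e1]
    have h11 : |(((n - n₀ : ℤ)) : ℝ)| ≤ q := by
      have h12 : |n - n₀| ≤ (q : ℤ) := by
        rw [hn₀, abs_le]
        constructor <;> linarith
      exact_mod_cast h12
    have h13 : |q * (((n - n₀ : ℤ) : ℝ) * θ)| ≤ 1 := by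
      rw [abs_mul, abs_mul, abs_of_pos hq0]
      calc (q : ℝ) * (|((n - n₀ : ℤ) : ℝ)| * |θ|) ≤ q * (q * (1 / (q * L))) := by gcongr
        _ = q / L := by field_simp
        _ ≤ 1 := by rw [div_le_one hL0]; exact hqL'
    have h14 : |(q : ℝ) * ((u n : ℝ) + n * t + c)| ≤ q * δ := by
      rw [abs_mul, abs_of_pos hq0]
      have := hu n hn.1
      gcongr
    exact (abs_sub _ _).trans (by linarith)
  have himg : ((N.image (fun n => (n - A) / q)).card : ℝ) ≤ L / q + 1 := by
    have h1 : N.image (fun n => (n - A) / q) ⊆ Ico 0 (((L / q : ℕ) : ℤ) + 1) := by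
      intro b hb
      rw [mem_image] at hb
      obtain ⟨n, hn, rfl⟩ := hb
      obtain ⟨h2, h3⟩ := hnA n hn
      rw [mem_Ico]
      constructor
      · exact Int.ediv_nonneg (by linarith) hqz.le
      · have h4 : (n - A) / q ≤ (L : ℤ) / q := Int.ediv_le_ediv hqz (by linarith)
        have h5 : ((L / q : ℕ) : ℤ) = (L : ℤ) / q := by push_cast; rfl
        rw [h5]
        omega
    have h2 := card_le_card h1
    rw [Int.card_Ico] at h2
    have h3 : (((L / q : ℕ) : ℤ) + 1 - 0).toNat = L / q + 1 := by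
      rw [sub_zero, ← Nat.cast_succ, Int.toNat_natCast]
    rw [h3] at h2
    have h4 : ((N.image (fun n => (n - A) / q)).card : ℝ) ≤ ((L / q : ℕ) : ℝ) + 1 := by
      exact_mod_cast h2
    have h5 : ((L / q : ℕ) : ℝ) ≤ (L : ℝ) / q := Nat.cast_div_le
    linarith
  have hN2 : (N.card : ℝ) = ∑ b ∈ N.image (fun n => (n - A) / q),
      ((N.filter fun n => (n - A) / q = b).card : ℝ) := by
    have := card_eq_sum_card_image (fun n => (n - A) / q) N
    exact_mod_cast this
  rw [hN2]
  refine (sum_le_sum hblk).trans ?_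
  rw [sum_const, nsmul_eq_mul]
  calc ((N.image (fun n => (n - A) / q)).card : ℝ) * (2 * (q * δ + 1) + 1)
      ≤ (L / q + 1) * (2 * (q * δ + 1) + 1) := by gcongr
    _ = 2 * L * δ + 3 * (L / q) + 2 * q * δ + 3 := by
        field_simp
        ring
    _ ≤ 2 * L * δ + 3 * (L / q) + 2 * L * δ + 3 := by gcongr
    _ = _ := by ring

end Pool.Agent.N656.PC
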