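import Pool.Agent.N656.PC.Tail
import Pool.Agent.N656.LL.Fin

set_option autoImplicit false
set_option linter.unusedSectionVars false

/-! All polynomials of bounded degree: the data of the limit law. -/

open Filter Topology Finset

namespace Pool.Agent.N656.PC

open Pool.Agent.R414.DN Pool.Agent.R414.DU Pool.Agent.N656.LL

lemma KT_nonneg (d : ℕ) : 0 ≤ KT d := by
  have := C2_nonneg d
  unfold KT
  positivity

/-- the data -/
noncomputable def dat0 {d : ℕ} (hd : 7 ≤ d) (hRED : S_RED) (hGAH : S_GAH) : Data where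
  α := Cf d
  dec := inferInstance
  S H := ibox ↥(I d) H
  Z a P := Fv (co a) d P.1 P.2 = 0
  v P := vol fun m => (mon (d + 1) P m : ℝ)
  n := Fintype.card (J (d + 1))
  k := d - 2
  K := KT d
  hn := by
    have h1 := card_J d
    have h2 := MM_pos d
    omega
  hk := by omega
  hK := KT_nonneg d
  hv P := vol_pos _
  lim P := by
    simp only [ncard_value]
    exact tendsto_cnt _ _
  two P Q hPQ H := by
    classical
    have h1 := card_two_values (e := d) (by omega) (H := H) (s := 0) (s' := 0)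
      (x := P.1) (y := P.2) (x' := Q.1) (y' := Q.2) hPQ
    have h2 : Set.ncard {a | a ∈ ibox ↥(I d) H ∧
        Fv (co a) d P.1 P.2 = 0 ∧ Fv (co a) d Q.1 Q.2 = 0} =
        ((ibox ↥(I d) H).filter fun a => Fv (co a) d P.1 P.2 = 0 ∧
          Fv (co a) d Q.1 Q.2 = 0).card := by
      rw [← Set.ncard_coe_finset]
      congr 1
      ext a
      simp
    rw [h2]
    have h3 : Fintype.card (J (d + 1)) - 1 = MM d - 2 := by
      have := card_J d
      omega
    rw [h3]
    exact_mod_cast h1
  tail T := by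
    classical
    obtain ⟨H₀, h⟩ := tail_main hd hRED hGAH T
    filter_upwards [eventually_ge_atTop H₀] with H hH
    have h1 := h H hH ((ibox ↥(I d) H).filter fun a => ∃ x y : ℤ,
      Fv (co a) d x y = 0 ∧ T < max x.natAbs y.natAbs)
      (filter_subset _ _) (fun a ha => (mem_filter.1 ha).2)
    have h2 : Set.ncard {a | a ∈ ibox ↥(I d) H ∧
        ∃ P : ℤ × ℤ, T < sz P ∧ Fv (co a) d P.1 P.2 = 0} =
        ((ibox ↥(I d) H).filter fun a => ∃ x y : ℤ,
      Fv (co a) d x y = 0 ∧ T < max x.natAbs y.natAbs).card := by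
      rw [← Set.ncard_coe_finset]
      congr 1
      ext a
      simp only [coe_filter, Set.mem_ofPred_eq]
      constructor
      · rintro ⟨h3, P, h4, h5⟩
        exact ⟨h3, P.1, P.2, h5, h4⟩
      · rintro ⟨h3, x, y, h5, h4⟩
        exact ⟨h3, (x, y), h4, h5⟩
    rw [h2]
    have h3 : Fintype.card (J (d + 1)) = MM d - 1 := by
      have := card_J d
      omega
    rw [h3]
    exact h1

/-- the lower bound for the tail -/
lemma wt_lower0 {d : ℕ} (hd : 7 ≤ d) (hRED : S_RED) (hGAH : S_GAH) {T : ℕ} (hT : 1 ≤ T) :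
    1 / (2 * K1 d * (T : ℝ) ^ (d - 2)) ≤ (dat0 hd hRED hGAH).wt (Data.big T) := by
  classical
  have h0 := K1_pos d
  have hT' : (1 : ℝ) ≤ T := by exact_mod_cast hT
  obtain ⟨H₀, h⟩ := lower_tail (e := d) (by omega : 2 ≤ d) 0 hT
  have h1 := (dat0 hd hRED hGAH).lim_set (Data.big T)
  refine ge_of_tendsto h1 ?_
  filter_upwards [eventually_ge_atTop H₀, eventually_ge_atTop 1] with H hH hH1
  have hH0 : (0 : ℝ) < H := by exact_mod_cast hH1
  have h2 := h H hH ((ibox ↥(I d) H).filter fun a => ∃ x y : ℤ,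
      Fv (co a) d x y = 0 ∧ T < max x.natAbs y.natAbs)
      (fun r hr hz => by
        rw [mem_filter]
        obtain ⟨x, y, h3, h4⟩ := hz
        refine ⟨hr, x, y, ?_, h4⟩
        rw [← eval_poly]
        rwa [zero_add] at h3)
  have h3 : (dat0 hd hRED hGAH).N (Data.big T) H =
      (((ibox ↥(I d) H).filter fun a => ∃ x y : ℤ,
      Fv (co a) d x y = 0 ∧ T < max x.natAbs y.natAbs).card : ℝ) := by
    unfold Data.N
    rw [← Set.ncard_coe_finset]
    congr 2
    ext a
    simp only [coe_filter, Set.mem_ofPred_eq]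
    constructor
    · rintro ⟨h3, P, h4, h5⟩
      exact ⟨h3, P.1, P.2, h5, h4⟩
    · rintro ⟨h3, x, y, h5, h4⟩
      exact ⟨h3, (x, y), h4, h5⟩
  have hn : (dat0 hd hRED hGAH).n = MM d - 1 := by
    have h4 : (dat0 hd hRED hGAH).n = Fintype.card (J (d + 1)) := rfl
    have := card_J d
    rw [h4]
    omega
  rw [h3, hn, le_div_iff₀ (by positivity)]
  refine le_trans ?_ h2
  have h5 : (H : ℝ) ^ (MM d - 1) ≤ (2 * (H : ℝ) + 1) ^ (MM d - 1) := by
    apply pow_le_pow_left₀ hH0.le
    linarith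
  gcongr

end Pool.Agent.N656.PC
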