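import Pool.Agent.N656.PC.Mid

set_option autoImplicit false
set_option linter.unusedSectionVars false

/-! The second genericity condition with a small constant. -/

open Finset

namespace Pool.Agent.N656.PC

open Pool.Agent.R414.DN Pool.Agent.R414.DS

/-- a root near a rational number with small denominator -/
def Nr (c : ℕ → ℕ → ℤ) (d Q L : ℕ) : Prop :=
  ∃ α : ℝ, |α| ≤ 2 ∧ TT c d 0 α = 0 ∧ ∃ q : ℕ, 1 ≤ q ∧ q ≤ Q ∧ ∃ p : ℤ,
    |α - p / q| ≤ 1 / (q * L)

lemma Nr_congr {c c' : ℕ → ℕ → ℤ} {d Q L : ℕ} (h : ∀ i, c d i = c' d i) (hN : Nr c d Q L) :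
    Nr c' d Q L := by
  obtain ⟨α, h1, h2, h3⟩ := hN
  refine ⟨α, h1, ?_, h3⟩
  rw [← h2]
  unfold TT
  refine sum_congr rfl fun j _ => ?_
  rw [h j]

/-- the constant in the count of forms with a root near a rational number -/
noncomputable def cN (d : ℕ) : ℝ := 7 * (2 * ((d + 1) * c1 d) + 1)

lemma cN_pos (d : ℕ) : 0 ≤ cN d := by
  have := c1_pos d
  unfold cN
  positivity

theorem card_Nr {d H Q : ℕ} (hd : 1 ≤ d) (S : Finset (Cf d)) (hS : S ⊆ ibox ↥(I d) H)
    (hN : ∀ a ∈ S, Nr (co a) d Q (2 * H + 1)) :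
    (S.card : ℝ) ≤ cN d * (Q : ℝ) ^ 2 * (2 * (H : ℝ) + 1) ^ (MM d - 1) := by
  classical
  have hc1 := c1_pos d
  obtain ⟨D, hD⟩ : ∃ D : ℝ, D = (d + 1) * c1 d := ⟨_, rfl⟩
  have hD0 : 0 ≤ D := by rw [hD]; positivity
  have hL0 : (0 : ℝ) < 2 * (H : ℝ) + 1 := by positivity
  have hHL : (H : ℝ) ≤ 2 * (H : ℝ) + 1 := by linarith [(Nat.cast_nonneg H : (0 : ℝ) ≤ H)]
  have h1 := card_cover (S := S) (K := Icc 1 Q ×ˢ Icc (-(3 * (Q : ℤ))) (3 * Q))
    (fun k a => |TT (co a) d 0 ((k.2 : ℝ) / k.1)| ≤ D)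
    (B := (2 * D + 1) * (2 * (H : ℝ) + 1) ^ (MM d - 1)) ?_ ?_
  · refine h1.trans ?_
    have h2 : (((Icc 1 Q ×ˢ Icc (-(3 * (Q : ℤ))) (3 * Q)).card : ℕ) : ℝ) ≤ 7 * (Q : ℝ) ^ 2 := by
      rw [card_product, Nat.card_Icc, Int.card_Icc]
      have h3 : (3 * (Q : ℤ) + 1 - -(3 * (Q : ℤ))).toNat = 6 * Q + 1 := by omega
      rw [h3]
      push_cast
      rcases Nat.eq_zero_or_pos Q with h4 | h4
      · rw [h4]; norm_num
      · have h5 : (1 : ℝ) ≤ Q := by exact_mod_cast h4
        nlinarith
    calc _ ≤ (7 * (Q : ℝ) ^ 2) * ((2 * D + 1) * (2 * (H : ℝ) + 1) ^ (MM d - 1)) := by gcongr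
      _ = _ := by
        unfold cN
        rw [← hD]
        ring
  · intro a ha
    obtain ⟨α, hα, h0, q, hq1, hqQ, p, hp⟩ := hN a ha
    have hq0 : (0 : ℝ) < q := by exact_mod_cast hq1
    have hq1' : (1 : ℝ) ≤ q := by exact_mod_cast hq1
    push_cast at hp
    have hL1 : (1 : ℝ) ≤ 2 * (H : ℝ) + 1 := by linarith [(Nat.cast_nonneg H : (0 : ℝ) ≤ H)]
    have hqL : (1 : ℝ) ≤ q * (2 * (H : ℝ) + 1) := by nlinarith
    have hρ1 : 1 / (q * (2 * (H : ℝ) + 1)) ≤ 1 := by
      rw [div_le_one (by positivity)]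
      exact hqL
    have hρ0 : 0 ≤ 1 / (q * (2 * (H : ℝ) + 1)) := by positivity
    refine ⟨(q, p), ?_, ?_⟩
    · rw [mem_product, mem_Icc, mem_Icc, ← abs_le]
      refine ⟨⟨hq1, hqQ⟩, ?_⟩
      have h2 : |(p : ℝ) / q| ≤ 2 + 1 / (q * (2 * (H : ℝ) + 1)) := by
        have e : (p : ℝ) / q = α - (α - p / q) := by ring
        rw [e]
        exact (abs_sub _ _).trans (by linarith)
      have h3 : |(p : ℝ)| ≤ 3 * q := by
        rw [abs_div, abs_of_pos hq0, div_le_iff₀ hq0] at h2
        have h4 : 1 / (q * (2 * (H : ℝ) + 1)) * q ≤ 1 := by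
          have e : 1 / (q * (2 * (H : ℝ) + 1)) * q = 1 / (2 * (H : ℝ) + 1) := by field_simp
          rw [e, div_le_one hL0]
          exact hL1
        linarith
      have h5 : |(p : ℝ)| ≤ 3 * Q := by
        have h6 : (q : ℝ) ≤ Q := by exact_mod_cast hqQ
        linarith
      exact_mod_cast h5
    · have h2 : |(p : ℝ) / q - α| ≤ 1 / (q * (2 * (H : ℝ) + 1)) := by
        rw [abs_sub_comm]
        exact hp
      have h3 := TT_second (co_le' (hS ha)) hd hα h2 hρ1
      rw [add_sub_cancel, h0, zero_add] at h3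
      have h4 := TT_le (co_le' (hS ha)) (le_refl d) 1 hα
      have h5 : |TT (co a) d 1 α * ((p : ℝ) / q - α)| ≤
          c1 d * H * (1 / (q * (2 * (H : ℝ) + 1))) := by
        rw [abs_mul]
        gcongr
      have h6 : |TT (co a) d 0 ((p : ℝ) / q)| ≤
          |TT (co a) d 0 ((p : ℝ) / q) - TT (co a) d 1 α * ((p : ℝ) / q - α)| +
          |TT (co a) d 1 α * ((p : ℝ) / q - α)| := by
        have := abs_add_le (TT (co a) d 0 ((p : ℝ) / q) - TT (co a) d 1 α * ((p : ℝ) / q - α))
          (TT (co a) d 1 α * ((p : ℝ) / q - α))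
        simpa using this
      have h7 : (1 / (q * (2 * (H : ℝ) + 1))) ^ 2 ≤ 1 / (q * (2 * (H : ℝ) + 1)) := by
        rw [pow_two]
        exact mul_le_of_le_one_left hρ0 hρ1
      have h8 : (H : ℝ) * (1 / (q * (2 * (H : ℝ) + 1))) ≤ 1 := by
        rw [mul_one_div, div_le_one (by positivity)]
        nlinarith
      calc |TT (co a) d 0 ((p : ℝ) / q)| ≤ d * c1 d * H * (1 / (q * (2 * (H : ℝ) + 1))) ^ 2 +
            c1 d * H * (1 / (q * (2 * (H : ℝ) + 1))) := by linarith
        _ ≤ d * c1 d * H * (1 / (q * (2 * (H : ℝ) + 1))) +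
            c1 d * H * (1 / (q * (2 * (H : ℝ) + 1))) := by gcongr
        _ = ((d + 1) * c1 d) * (H * (1 / (q * (2 * (H : ℝ) + 1)))) := by ring
        _ ≤ ((d + 1) * c1 d) * 1 := by gcongr
        _ = D := by rw [hD, mul_one]
  · intro k _ T hT hTk
    have hTS := hT.trans hS
    let p0 : ↥(I d) := ip d d le_rfl
    have k1 := card_window (S := T) p0
      (fun a => -TT (co (Function.update a p0 0)) d 0 ((k.2 : ℝ) / k.1))
      (fun a n => by simp only [Function.update_idem]) hD0 (by
        intro a ha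
        have h3 := TT_update a p0 ((k.2 : ℝ) / k.1)
        have h4 : TT (co a) d 0 ((k.2 : ℝ) / k.1) = a p0 +
          TT (co (Function.update a p0 0)) d 0 ((k.2 : ℝ) / k.1) := h3
        simp only [sub_neg_eq_add]
        rw [← h4]
        exact hTk a ha)
    refine k1.trans ?_
    have h2 : (T.image fun a => Function.update a p0 0).card ≤ (2 * H + 1) ^ (MM d - 1) := by
      have h3 : (ibox0 H ({p0} : Finset ↥(I d))).card = (2 * H + 1) ^ (MM d - 1) := by
        rw [card_ibox0, card_singleton]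
        rfl
      rw [← h3]
      apply card_le_card
      intro b hb
      rw [mem_image] at hb
      obtain ⟨a, ha, rfl⟩ := hb
      have h4 := mem_ibox.1 (hTS ha)
      rw [mem_ibox0]
      intro i
      rcases eq_or_ne i p0 with rfl | hi
      · simp
      · rw [Function.update_of_ne hi]
        refine ⟨h4 i, fun h5 => ?_⟩
        rw [mem_singleton] at h5
        exact absurd h5 hi
    have h3 : (((T.image fun a => Function.update a p0 0).card : ℕ) : ℝ) ≤
        (2 * (H : ℝ) + 1) ^ (MM d - 1) := by exact_mod_cast h2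
    gcongr

/-- the value at degree zero, one coefficient split off -/
lemma TT_update0 {d : ℕ} (a : Cf d) (p : ↥(I d)) (t : ℝ) :
    TT (co a) p.1.1 0 t = a p * t ^ p.1.2 + TT (co (Function.update a p 0)) p.1.1 0 t := by
  have hp := mem_I.1 p.2
  have hmem : p.1.2 ∈ range (p.1.1 + 1) := by rw [mem_range]; omega
  rw [TT_zero, TT_zero, ← add_sum_erase _ _ hmem, ← add_sum_erase (range (p.1.1 + 1))
    (fun j => (co (Function.update a p 0) p.1.1 j : ℝ) * t ^ j) hmem]
  have h1 : co a p.1.1 p.1.2 = a p := co_of_mem a p.2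
  have h2 : co (Function.update a p 0) p.1.1 p.1.2 = 0 := by
    rw [co_of_mem _ p.2]
    exact Function.update_self _ _ _
  simp only [h1, h2]
  have h3 : ∑ j ∈ (range (p.1.1 + 1)).erase p.1.2, (co a p.1.1 j : ℝ) * t ^ j =
      ∑ j ∈ (range (p.1.1 + 1)).erase p.1.2, (co (Function.update a p 0) p.1.1 j : ℝ) * t ^ j := by
    refine sum_congr rfl fun j hj => ?_
    rw [co_update]
    intro h
    rw [mem_erase] at hj
    exact hj.1 (congrArg Prod.snd h)
  rw [h3]
  simp

/-- the fibre bound for the second condition -/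
lemma fiber_notGBA {d : ℕ} {H w g : ℝ} (hd : 2 ≤ d) (hH : 0 < H) (hw : 0 < w) (hg : 0 ≤ g)
    (p2 : ↥(I d)) (hp2 : p2.1 = (d - 2, 0)) (b : Cf d) (T : Finset (Cf d))
    (hTb : ∀ a ∈ T, ∀ i ∉ ({p2} : Finset ↥(I d)), a i = b i)
    (hA : ∀ a ∈ T, GA (co a) d H w) (hG : ∀ a ∈ T, ¬ GB (co a) d g) :
    (T.card : ℝ) ≤ d * (2 * g + 1) := by
  classical
  rcases T.eq_empty_or_nonempty with h0 | ⟨a₀, h0⟩
  · rw [h0, card_empty, Nat.cast_zero]
    positivity
  have hupd : ∀ a ∈ T, Function.update a p2 0 = Function.update b p2 0 := by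
    intro a ha
    funext i
    by_cases hi : i = p2
    · rw [hi, Function.update_self, Function.update_self]
    · rw [Function.update_of_ne hi, Function.update_of_ne hi]
      exact hTb a ha i (by rwa [mem_singleton])
  obtain ⟨b0, hb0⟩ : ∃ b0, b0 = Function.update b p2 0 := ⟨_, rfl⟩
  rw [← hb0] at hupd
  have hp21 : p2.1.1 = d - 2 := congrArg Prod.fst hp2
  have hp22 : p2.1.2 = 0 := congrArg Prod.snd hp2
  have e1 : ∀ a ∈ T, ∀ k i t, k ≠ d - 2 → TT (co a) k i t = TT (co b0) k i t := by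
    intro a ha k i t hk
    rw [← hupd a ha, TT_update_ne]
    left
    rw [hp21]
    exact hk
  have e2 : ∀ a ∈ T, ∀ t, TT (co a) (d - 2) 0 t = a p2 + TT (co b0) (d - 2) 0 t := by
    intro a ha t
    have h1 := TT_update a p2 t
    rw [hupd a ha, hp21, hp22] at h1
    exact h1
  have e3 : ∀ a ∈ T, ∀ t, bet (co a) d t = bet (co b0) d t := by
    intro a ha t
    unfold bet
    rw [e1 a ha _ _ _ (by omega), e1 a ha _ _ _ (by omega)]
  have hA0 : GA (co b0) d H w := by
    intro t ht
    have h1 := hA a₀ h0 t ht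
    rw [e1 a₀ h0 _ _ _ (by omega), e1 a₀ h0 _ _ _ (by omega)] at h1
    exact h1
  have key := card_cover (S := T) (K := rts (co b0) d)
    (fun α a => |(a p2 : ℝ) + (TT (co b0) (d - 2) 0 α + TT (co b0) (d - 1) 1 α * bet (co b0) d α +
      TT (co b0) d 2 α * bet (co b0) d α ^ 2)| ≤ g) (B := 2 * g + 1) ?_ ?_
  · refine key.trans ?_
    have := card_rts (co b0) d
    have h3 : ((rts (co b0) d).card : ℝ) ≤ d := by exact_mod_cast this
    gcongr
  · intro a ha
    have h2 := hG a ha
    unfold GB at h2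
    push Not at h2
    obtain ⟨α, -, h3, h4, h5⟩ := h2
    refine ⟨α, ?_, ?_⟩
    · apply mem_rtsA hH hw hA0
      rw [← e1 a ha _ _ _ (by omega)]
      exact h3
    · have h6 : TT (co a) d 1 α * gam (co a) d α = -((a p2 : ℝ) + (TT (co b0) (d - 2) 0 α +
          TT (co b0) (d - 1) 1 α * bet (co b0) d α + TT (co b0) d 2 α * bet (co b0) d α ^ 2)) := by
        unfold gam
        rw [e3 a ha, e2 a ha, e1 a ha (d - 1) _ _ (by omega), e1 a ha d 2 _ (by omega)]
        field_simp
        ring
      rw [h6, abs_neg] at h5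
      exact h5.le
  · intro α _ T' hT' hP
    have h7 : T'.card = (T'.image fun a => a p2).card := by
      rw [card_image_of_injOn]
      intro a ha a' ha' haa
      rw [mem_coe] at ha ha'
      funext i
      by_cases hi : i = p2
      · rw [hi]
        exact haa
      · rw [hTb a (hT' ha) i (by rwa [mem_singleton]), hTb a' (hT' ha') i (by rwa [mem_singleton])]
    rw [h7]
    apply int_window hg (c := -(TT (co b0) (d - 2) 0 α + TT (co b0) (d - 1) 1 α * bet (co b0) d α +
      TT (co b0) d 2 α * bet (co b0) d α ^ 2))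
    intro n hn
    rw [mem_image] at hn
    obtain ⟨a, ha, rfl⟩ := hn
    rw [sub_neg_eq_add]
    exact hP a ha

/-- the fibre bound for the second condition, two free coefficients -/
lemma fiber_notGB2 {d H Q : ℕ} {w g : ℝ} (hd : 3 ≤ d) (hH : 1 ≤ H) (hw : 0 < w) (hg : 0 ≤ g)
    (hQ : 1 ≤ Q) (p2 p3 : ↥(I d)) (hp2 : p2.1 = (d - 2, 0)) (hp3 : p3.1 = (d - 2, 1))
    (b : Cf d) (T : Finset (Cf d)) (hT : T ⊆ ibox ↥(I d) H)
    (hTb : ∀ a ∈ T, ∀ i ∉ ({p2, p3} : Finset ↥(I d)), a i = b i)
    (hA : ∀ a ∈ T, GA (co a) d H w) (hN : ∀ a ∈ T, ¬ Nr (co a) d Q (2 * H + 1))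
    (hG : ∀ a ∈ T, ¬ GB (co a) d g) :
    (T.card : ℝ) ≤ d * (4 * (2 * (H : ℝ) + 1) * g + 3 * ((2 * (H : ℝ) + 1) / Q) + 3) := by
  classical
  have hQ0 : (0 : ℝ) < Q := by exact_mod_cast hQ
  have hL0 : (0 : ℝ) < 2 * (H : ℝ) + 1 := by positivity
  rcases T.eq_empty_or_nonempty with h0 | ⟨a₀, h0⟩
  · rw [h0, card_empty, Nat.cast_zero]
    positivity
  have hH' : (0 : ℝ) < H := by exact_mod_cast hH
  have hp21 : p2.1.1 = d - 2 := congrArg Prod.fst hp2
  have hp22 : p2.1.2 = 0 := congrArg Prod.snd hp2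
  have hp31 : p3.1.1 = d - 2 := congrArg Prod.fst hp3
  have hp32 : p3.1.2 = 1 := congrArg Prod.snd hp3
  have hne : p3 ≠ p2 := by
    intro h
    rw [h, hp22] at hp32
    exact zero_ne_one hp32
  obtain ⟨b0, hb0⟩ : ∃ b0, b0 = Function.update (Function.update b p2 0) p3 0 := ⟨_, rfl⟩
  have hupd : ∀ a ∈ T, Function.update (Function.update a p2 0) p3 0 = b0 := by
    intro a ha
    rw [hb0]
    funext i
    by_cases hi : i = p3
    · rw [hi, Function.update_self, Function.update_self]
    · rw [Function.update_of_ne hi, Function.update_of_ne hi]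
      by_cases hi2 : i = p2
      · rw [hi2, Function.update_self, Function.update_self]
      · rw [Function.update_of_ne hi2, Function.update_of_ne hi2]
        exact hTb a ha i (by rw [mem_insert, mem_singleton]; tauto)
  have e1 : ∀ a ∈ T, ∀ k i t, k ≠ d - 2 → TT (co a) k i t = TT (co b0) k i t := by
    intro a ha k i t hk
    rw [← hupd a ha, TT_update_ne, TT_update_ne]
    · left
      rw [hp21]
      exact hk
    · left
      rw [hp31]
      exact hk
  have e2 : ∀ a ∈ T, ∀ t, TT (co a) (d - 2) 0 t =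
      a p2 + a p3 * t + TT (co b0) (d - 2) 0 t := by
    intro a ha t
    have h1 := TT_update0 a p2 t
    have h2 := TT_update0 (Function.update a p2 0) p3 t
    rw [hupd a ha, hp31, hp32, Function.update_of_ne hne, pow_one] at h2
    rw [hp21, hp22, pow_zero, mul_one, h2] at h1
    rw [h1]
    ring
  have e3 : ∀ a ∈ T, ∀ t, bet (co a) d t = bet (co b0) d t := by
    intro a ha t
    unfold bet
    rw [e1 a ha _ _ _ (by omega), e1 a ha _ _ _ (by omega)]
  have hA0 : GA (co b0) d H w := by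
    intro t ht
    have h1 := hA a₀ h0 t ht
    rw [e1 a₀ h0 _ _ _ (by omega), e1 a₀ h0 _ _ _ (by omega)] at h1
    exact h1
  have key := card_cover (S := T) (K := rts (co b0) d)
    (fun α a => |α| ≤ 2 ∧ TT (co b0) d 0 α = 0 ∧
      |(a p2 : ℝ) + a p3 * α + (TT (co b0) (d - 2) 0 α +
      TT (co b0) (d - 1) 1 α * bet (co b0) d α +
      TT (co b0) d 2 α * bet (co b0) d α ^ 2)| ≤ g)
    (B := 4 * (2 * (H : ℝ) + 1) * g + 3 * ((2 * (H : ℝ) + 1) / Q) + 3) ?_ ?_
  · refine key.trans ?_
    have := card_rts (co b0) d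
    have h3 : ((rts (co b0) d).card : ℝ) ≤ d := by exact_mod_cast this
    have h4 : 0 ≤ 4 * (2 * (H : ℝ) + 1) * g + 3 * ((2 * (H : ℝ) + 1) / Q) + 3 := by positivity
    gcongr
  · intro a ha
    have h2 := hG a ha
    unfold GB at h2
    push Not at h2
    obtain ⟨α, hα2, h3, h4, h5⟩ := h2
    have h30 : TT (co b0) d 0 α = 0 := by
      rw [← e1 a ha _ _ _ (by omega)]
      exact h3
    refine ⟨α, mem_rtsA hH' hw hA0 h30, hα2, h30, ?_⟩
    have h6 : TT (co a) d 1 α * gam (co a) d α = -((a p2 : ℝ) + a p3 * α +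
        (TT (co b0) (d - 2) 0 α +
        TT (co b0) (d - 1) 1 α * bet (co b0) d α + TT (co b0) d 2 α * bet (co b0) d α ^ 2)) := by
      unfold gam
      rw [e3 a ha, e2 a ha, e1 a ha (d - 1) _ _ (by omega), e1 a ha d 2 _ (by omega)]
      field_simp
      ring
    rw [h6, abs_neg] at h5
    exact h5.le
  · intro α _ T' hT' hP
    rcases T'.eq_empty_or_nonempty with h0' | ⟨a₁, h1'⟩
    · rw [h0', card_empty, Nat.cast_zero]
      positivity
    obtain ⟨hα2, hα0, -⟩ := hP a₁ h1'
    obtain ⟨cc, hcc⟩ : ∃ cc : ℝ, cc = (TT (co b0) (d - 2) 0 α +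
        TT (co b0) (d - 1) 1 α * bet (co b0) d α +
        TT (co b0) d 2 α * bet (co b0) d α ^ 2) := ⟨_, rfl⟩
    have hP' : ∀ a ∈ T', |(a p2 : ℝ) + a p3 * α + cc| ≤ g := by
      intro a ha
      rw [hcc]
      exact (hP a ha).2.2
    have hdet : ∀ a ∈ T', ∀ a' ∈ T', a p2 = a' p2 → a p3 = a' p3 → a = a' := by
      intro a ha a' ha' h2 h3
      funext i
      by_cases hi : i = p2
      · rw [hi]; exact h2
      by_cases hi3 : i = p3
      · rw [hi3]; exact h3
      rw [hTb a (hT' ha) i (by rw [mem_insert, mem_singleton]; tauto),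
        hTb a' (hT' ha') i (by rw [mem_insert, mem_singleton]; tauto)]
    have hbox : ∀ a ∈ T', -(H : ℤ) ≤ a p3 ∧ a p3 < -(H : ℤ) + ((2 * H + 1 : ℕ) : ℤ) := by
      intro a ha
      have h2 := abs_le.1 (mem_ibox.1 (hT (hT' ha)) p3)
      push_cast
      constructor <;> linarith [h2.1, h2.2]
    rcases lt_or_ge g (1 / 2) with hg2 | hg2
    · -- Dirichlet
      obtain ⟨r, hr1, hr2⟩ := Real.exists_rat_abs_sub_le_and_den_le α
        (n := 2 * H + 1) (Nat.succ_pos _)
      have hrden : (0 : ℝ) < r.den := by exact_mod_cast r.den_pos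
      have hr3 : |α - (r.num : ℝ) / r.den| ≤ 1 / (r.den * ((2 * H + 1 : ℕ) : ℝ)) := by
        have e : ((r : ℚ) : ℝ) = (r.num : ℝ) / r.den := by
          have := Rat.num_div_den r
          exact_mod_cast this.symm
        rw [← e]
        refine hr1.trans ?_
        apply one_div_le_one_div_of_le (by positivity)
        rw [mul_comm]
        gcongr
        linarith
      have hQr : Q < r.den := by
        by_contra hcon
        rw [not_lt] at hcon
        apply hN a₀ h0
        refine ⟨α, hα2, ?_, r.den, r.den_pos, hcon, r.num, hr3⟩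
        rw [e1 a₀ h0 _ _ _ (by omega)]
        exact hα0
      have hcop : IsCoprime r.num (r.den : ℤ) := by
        rw [Int.isCoprime_iff_nat_coprime]
        simpa using r.reduced
      have h7 : T'.card = (T'.image fun a => a p3).card := by
        rw [card_image_of_injOn]
        intro a ha a' ha' haa
        rw [mem_coe] at ha ha'
        simp only at haa
        refine hdet a ha a' ha' ?_ haa
        have h8 : |((a p2 - a' p2 : ℤ) : ℝ)| < 1 := by
          have e : ((a p2 - a' p2 : ℤ) : ℝ) = ((a p2 : ℝ) + a p3 * α + cc) -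
              ((a' p2 : ℝ) + a' p3 * α + cc) := by
            rw [haa]
            push_cast
            ring
          rw [e]
          have := hP' a ha
          have := hP' a' ha'
          refine lt_of_le_of_lt (abs_sub _ _) ?_
          linarith
        rw [← Int.cast_abs] at h8
        have h9 : |a p2 - a' p2| < 1 := by exact_mod_cast h8
        rw [Int.abs_lt_one_iff] at h9
        linarith
      rw [h7]
      have h8 := t_BLK α cc g (2 * H + 1) r.den r.num hg r.den_pos hr2 hcop hr3 (-(H : ℤ))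
        (T'.image fun a => a p3) (by
          intro n hn
          rw [mem_image] at hn
          obtain ⟨a, ha, rfl⟩ := hn
          exact ⟨hbox a ha, a p2, hP' a ha⟩)
      refine h8.trans ?_
      push_cast
      have h9 : (Q : ℝ) ≤ r.den := by exact_mod_cast hQr.le
      gcongr
    · have k1 := card_window (S := T') p2 (fun a => -(a p3 * α + cc))
        (fun a n => by rw [Function.update_of_ne hne]) hg (by
          intro a ha
          rw [sub_neg_eq_add, ← add_assoc]
          exact hP' a ha)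
      have h2 : (T'.image fun a => Function.update a p2 0).card ≤ 2 * H + 1 := by
        rw [← card_Icc_H H]
        apply card_le_card_of_injOn (fun c => c p3)
        · intro c hc
          rw [mem_coe, mem_image] at hc
          obtain ⟨a, ha, rfl⟩ := hc
          simp only [Function.update_of_ne hne]
          rw [mem_coe, mem_Icc, ← abs_le]
          exact mem_ibox.1 (hT (hT' ha)) p3
        · intro c hc c' hc' hcc'
          rw [mem_coe, mem_image] at hc hc'
          obtain ⟨a, ha, rfl⟩ := hc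
          obtain ⟨a', ha', rfl⟩ := hc'
          simp only [Function.update_of_ne hne] at hcc'
          funext i
          by_cases hi : i = p2
          · rw [hi, Function.update_self, Function.update_self]
          · rw [Function.update_of_ne hi, Function.update_of_ne hi]
            by_cases hi3 : i = p3
            · rw [hi3]; exact hcc'
            rw [hTb a (hT' ha) i (by rw [mem_insert, mem_singleton]; tauto),
              hTb a' (hT' ha') i (by rw [mem_insert, mem_singleton]; tauto)]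
      have h3 : (((T'.image fun a => Function.update a p2 0).card : ℕ) : ℝ) ≤
          2 * (H : ℝ) + 1 := by exact_mod_cast h2
      have h4 : 0 ≤ 3 * ((2 * (H : ℝ) + 1) / Q) := by positivity
      calc (T'.card : ℝ) ≤ (2 * g + 1) * (2 * (H : ℝ) + 1) := by
            refine k1.trans ?_
            gcongr
        _ ≤ (4 * g) * (2 * (H : ℝ) + 1) := by
            gcongr
            linarith
        _ ≤ _ := by linarith

end Pool.Agent.N656.PC
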