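import Pool.Agent.N656.PC.GBc

set_option autoImplicit false
set_option linter.unusedSectionVars false

/-! The middle range with a small constant. -/

open Finset

namespace Pool.Agent.N656.PC

open Pool.Agent.R414.DN Pool.Agent.R414.DS

lemma s1_one (d : ℕ) : 1 ≤ s1 d := by
  unfold s1
  have hK := KN_one (d := d) (le_refl (1 : ℝ))
  have hc1 := c1_pos d
  have h1 : 1 ≤ KN d 1 ^ 7 := one_le_pow₀ hK
  calc (1 : ℝ) ≤ 12800 * 1 * 1 := by norm_num
    _ ≤ _ := by gcongr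

lemma CA_one (d : ℕ) : 1 ≤ CA d := by
  have hc1 := c1_pos d
  unfold CA
  have h1 : (0 : ℝ) ≤ 2 * d * c1 d := by positivity
  nlinarith

lemma MB_leA {d H : ℕ} {w Y₁ L η : ℝ} (hH : 1 ≤ H) (hw : 1 ≤ w) (hη : 0 < η) (hη1 : η ≤ 1)
    (hL0 : 0 ≤ L) (hlog0 : 0 ≤ Real.log Y₁) (hL : Real.log Y₁ ≤ L * Real.sqrt H) :
    (MB d w H (η * w) Y₁ : ℝ) ≤ 8 * s1 d * d * (4 * KN d 1 * L + 1) / η * (w ^ 4 * H) := by
  have hH' : (1 : ℝ) ≤ H := by exact_mod_cast hH
  have hH0 : (0 : ℝ) < H := by linarith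
  have hc1 := c1_pos d
  have hK := KN_one (d := d) (le_refl (1 : ℝ))
  have hw0 : 0 < w := by linarith
  have hs1 := s1_one d
  have hsq : 1 ≤ Real.sqrt H := by
    rw [Real.one_le_sqrt]
    exact hH'
  have hBB : BB d w H (η * w) = s1 d * (w ^ 3) ^ 2 * H * (1 / η) := by
    unfold BB s1
    rw [KN_scale d w]
    field_simp
  have hη2 : 1 ≤ 1 / η := by
    rw [le_div_iff₀ hη]
    linarith
  have h1 : Real.sqrt (BB d w H (η * w)) ≤ s1 d * w ^ 3 * Real.sqrt H * (1 / η) := by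
    rw [hBB]
    apply Real.sqrt_le_iff.2
    constructor
    · positivity
    · have h2 : (s1 d * w ^ 3 * Real.sqrt H * (1 / η)) ^ 2 =
          s1 d ^ 2 * (w ^ 3) ^ 2 * H * (1 / η) ^ 2 := by
        rw [mul_pow, mul_pow, mul_pow, Real.sq_sqrt hH0.le]
      rw [h2]
      have h3 : s1 d ≤ s1 d ^ 2 := le_self_pow₀ hs1 two_ne_zero
      have h4 : 1 / η ≤ (1 / η) ^ 2 := le_self_pow₀ hη2 two_ne_zero
      gcongr
  have h2 : (⌊2 * Real.sqrt (BB d w H (η * w)) + 2⌋₊ : ℝ) ≤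
      4 * s1 d * w ^ 3 * Real.sqrt H * (1 / η) := by
    refine (Nat.floor_le (by positivity)).trans ?_
    have h3 : 1 ≤ s1 d * w ^ 3 * Real.sqrt H * (1 / η) := by
      have h4 : 1 ≤ w ^ 3 := one_le_pow₀ hw
      calc (1 : ℝ) = 1 * 1 * 1 * 1 := by norm_num
        _ ≤ _ := by gcongr
    linarith
  have h3 : (⌊4 * KN d w * Real.log Y₁⌋₊ : ℝ) ≤ 4 * KN d 1 * L * w * Real.sqrt H := by
    refine (Nat.floor_le (by have := KN_one (d := d) hw; positivity)).trans ?_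
    rw [KN_scale d w]
    calc 4 * (KN d 1 * w) * Real.log Y₁ ≤ 4 * (KN d 1 * w) * (L * Real.sqrt H) := by gcongr
      _ = _ := by ring
  have h4 : (⌊4 * KN d w * Real.log Y₁⌋₊ : ℝ) + 1 ≤ (4 * KN d 1 * L + 1) * (w * Real.sqrt H) := by
    have h5 : 1 ≤ w * Real.sqrt H := by
      calc (1 : ℝ) = 1 * 1 := by norm_num
        _ ≤ _ := by gcongr
    have h6 : (4 * KN d 1 * L + 1) * (w * Real.sqrt H) =
      4 * KN d 1 * L * w * Real.sqrt H + w * Real.sqrt H := by ring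
    rw [h6]
    linarith
  unfold MB
  push_cast
  calc (⌊2 * Real.sqrt (BB d w H (η * w)) + 2⌋₊ : ℝ) *
        (d * (2 * ((⌊4 * KN d w * Real.log Y₁⌋₊ : ℝ) + 1)))
      ≤ (4 * s1 d * w ^ 3 * Real.sqrt H * (1 / η)) *
        (d * (2 * ((4 * KN d 1 * L + 1) * (w * Real.sqrt H)))) := by gcongr
    _ = 8 * s1 d * d * (4 * KN d 1 * L + 1) / η * (w ^ 4 * (Real.sqrt H * Real.sqrt H)) := by
      ring
    _ = _ := by rw [Real.mul_self_sqrt hH0.le]

/-- the first condition fails, no upper limit for the level -/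
lemma card_notGA' {d H : ℕ} {w : ℝ} (hd : 1 ≤ d) (hH : 1 ≤ H) (hw : 1 ≤ w) (S : Finset (Cf d))
    (hS : S ⊆ ibox ↥(I d) H) (hG : ∀ a ∈ S, ¬ GA (co a) d H w) :
    (S.card : ℝ) ≤ CA d * (1 / w ^ 2 + 1 / H) * (2 * (H : ℝ) + 1) ^ MM d := by
  have hH' : (1 : ℝ) ≤ H := by exact_mod_cast hH
  have hH0 : (0 : ℝ) < H := by linarith
  have hw0 : 0 < w := by linarith
  have hCA := CA_one d
  rcases le_total (w ^ 2) H with h1 | h1
  · refine (card_notGA hd hw h1 S hS hG).trans ?_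
    calc CA d * (2 * (H : ℝ) + 1) ^ MM d / w ^ 2
        = CA d * (1 / w ^ 2 + 0) * (2 * (H : ℝ) + 1) ^ MM d := by ring
      _ ≤ _ := by
        gcongr
        positivity
  · have hs : 1 ≤ Real.sqrt H := by
      rw [Real.one_le_sqrt]
      exact hH'
    have hsw : Real.sqrt H ≤ w := by
      rw [Real.sqrt_le_left hw0.le]
      exact h1
    have h2 := card_notGA (H := H) hd hs (by rw [Real.sq_sqrt hH0.le]) S hS (by
      intro a ha h3
      exact hG a ha (GA_mono hH0.le (by linarith) hsw h3))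
    rw [Real.sq_sqrt hH0.le] at h2
    refine h2.trans ?_
    calc CA d * (2 * (H : ℝ) + 1) ^ MM d / H
        = CA d * (0 + 1 / H) * (2 * (H : ℝ) + 1) ^ MM d := by ring
      _ ≤ _ := by
        gcongr
        positivity

/-- one level -/
lemma level_small {d H Q : ℕ} {w g Y₀ Y₁ X : ℝ} (hd : 4 ≤ d) (hH : 1 ≤ H) (hw : 1 ≤ w)
    (hg : 0 < g) (hQ : 1 ≤ Q)
    (hYa : 4 * d ^ 2 * c1 d ^ 2 * w ^ 2 ≤ Y₀) (hYb : 156 * KN d w ^ 3 ≤ Y₀)
    (hYc : 312 * KN d w ^ 5 ≤ g / (c1 d * H) * Y₀) (hY2 : 2 * (H : ℝ) < Y₀)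
    {R S : Finset (Cf d)} (hR : R ⊆ ibox ↥(I d) H) (hS : S ⊆ R)
    (hsat : ∀ a ∈ R, ∀ b ∈ ibox ↥(I d) H, (∀ i, co b d i = co a d i) → b ∈ R)
    (hcard : (R.card : ℝ) ≤ X * (2 * (H : ℝ) + 1) ^ MM d)
    (hz : ∀ a ∈ S, ∃ x y : ℤ, Fv (co a) d x y = 0 ∧ |x| ≤ |y| ∧ Y₀ ≤ |(y : ℝ)| ∧
      |(y : ℝ)| ≤ Y₁) (hG : ∀ a ∈ S, GA (co a) d H w) :
    (S.card : ℝ) ≤ d * X * (4 * g + 3 / Q + 3 / (2 * (H : ℝ) + 1)) *
        (2 * (H : ℝ) + 1) ^ (MM d - 1) +
      d * (2 * g + 1) * (cN d * (Q : ℝ) ^ 2) * (2 * (H : ℝ) + 1) ^ (MM d - 2) +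
      (MB d w H g Y₁ : ℝ) * X * (2 * (H : ℝ) + 1) ^ (MM d - (d - 3)) := by
  classical
  have hH' : (1 : ℝ) ≤ H := by exact_mod_cast hH
  have hH0 : (0 : ℝ) < H := by linarith
  have hw0 : 0 < w := by linarith
  have hQ0 : (0 : ℝ) < Q := by exact_mod_cast hQ
  have hX0 : (0 : ℝ) < 2 * (H : ℝ) + 1 := by linarith
  have hMd := MM_pos d
  have hXn : 0 ≤ X := by
    by_contra hcon
    rw [not_le] at hcon
    have h1 : X * (2 * (H : ℝ) + 1) ^ MM d < 0 := mul_neg_of_neg_of_pos hcon (by positivity)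
    have h2 : (0 : ℝ) ≤ R.card := Nat.cast_nonneg _
    linarith
  obtain ⟨p2, hp2⟩ : ∃ p2 : ↥(I d), p2.1 = (d - 2, 0) :=
    ⟨⟨(d - 2, 0), by rw [mem_I]; exact ⟨Nat.sub_le _ _, Nat.zero_le _⟩⟩, rfl⟩
  obtain ⟨p3, hp3⟩ : ∃ p3 : ↥(I d), p3.1 = (d - 2, 1) :=
    ⟨⟨(d - 2, 1), by rw [mem_I]; exact ⟨Nat.sub_le _ _, by simp only; omega⟩⟩, rfl⟩
  have hne : p2 ≠ p3 := by
    intro h
    have h1 : p2.1.2 = p3.1.2 := by rw [h]
    rw [hp2, hp3] at h1
    exact zero_ne_one h1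
  -- saturation
  have hsat' : ∀ J : Finset ↥(I d), (∀ p ∈ J, p.1.1 ≠ d) → ∀ a ∈ R, ∀ b ∈ ibox ↥(I d) H,
      (∀ i ∉ J, b i = a i) → b ∈ R := by
    intro J hJ a ha b hb hab
    apply hsat a ha b hb
    intro i
    by_cases hmem : (d, i) ∈ I d
    · rw [co_of_mem a hmem, co_of_mem b hmem]
      apply hab
      intro h1
      exact hJ _ h1 rfl
    · unfold co
      rw [dif_neg hmem, dif_neg hmem]
  -- good
  have b1 := card_fiber_rel (H := H) (Q := R)
    (S := S.filter fun a => ¬ GB (co a) d g ∧ ¬ Nr (co a) d Q (2 * H + 1)) hR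
    ((filter_subset _ _).trans hS) {p2, p3} (hsat' _ (by
      intro p hp
      rw [mem_insert, mem_singleton] at hp
      rcases hp with hp | hp
      · rw [hp, hp2]; simp only; omega
      · rw [hp, hp3]; simp only; omega))
    (B := d * (4 * (2 * (H : ℝ) + 1) * g + 3 * ((2 * (H : ℝ) + 1) / Q) + 3)) (by positivity) (by
      intro b T hT hTb
      have hTS : ∀ a ∈ T, a ∈ S := fun a ha => (mem_filter.1 (hT ha)).1
      exact fiber_notGB2 (by omega) hH hw0 hg.le hQ p2 p3 hp2 hp3 b T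
        (fun a ha => hR (hS (hTS a ha))) hTb (fun a ha => hG a (hTS a ha))
        (fun a ha => (mem_filter.1 (hT ha)).2.2) (fun a ha => (mem_filter.1 (hT ha)).2.1))
  rw [card_pair hne] at b1
  have c1' : ((S.filter fun a => ¬ GB (co a) d g ∧ ¬ Nr (co a) d Q (2 * H + 1)).card : ℝ) ≤
      d * X * (4 * g + 3 / Q + 3 / (2 * (H : ℝ) + 1)) * (2 * (H : ℝ) + 1) ^ (MM d - 1) := by
    have e1 : (2 * (H : ℝ) + 1) ^ MM d = (2 * (H : ℝ) + 1) ^ (MM d - 1) * (2 * (H : ℝ) + 1) := by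
      rw [← pow_succ]
      congr 1
      omega
    refine le_of_mul_le_mul_right (a := (2 * (H : ℝ) + 1) ^ 2) ?_ (by positivity)
    refine b1.trans ?_
    calc d * (4 * (2 * (H : ℝ) + 1) * g + 3 * ((2 * (H : ℝ) + 1) / Q) + 3) * (R.card : ℝ)
        ≤ d * (4 * (2 * (H : ℝ) + 1) * g + 3 * ((2 * (H : ℝ) + 1) / Q) + 3) *
          (X * (2 * (H : ℝ) + 1) ^ MM d) := by gcongr
      _ = _ := by
        rw [e1]
        field_simp
  -- root near a rational number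
  have b2 := card_fiber_rel (H := H)
    (Q := (ibox ↥(I d) H).filter fun a => Nr (co a) d Q (2 * H + 1))
    (S := S.filter fun a => ¬ GB (co a) d g ∧ Nr (co a) d Q (2 * H + 1)) (filter_subset _ _)
    (by
      intro a ha
      rw [mem_filter] at ha ⊢
      exact ⟨hR (hS ha.1), ha.2.2⟩) {p2} (by
      intro a ha b hb hab
      rw [mem_filter] at ha ⊢
      refine ⟨hb, Nr_congr ?_ ha.2⟩
      intro i
      by_cases hmem : (d, i) ∈ I d
      · rw [co_of_mem a hmem, co_of_mem b hmem]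
        symm
        apply hab
        rw [mem_singleton]
        intro h1
        have h2 : d = p2.1.1 := by rw [← h1]
        rw [hp2] at h2
        simp only at h2
        omega
      · unfold co
        rw [dif_neg hmem, dif_neg hmem])
    (B := d * (2 * g + 1)) (by positivity) (by
      intro b T hT hTb
      exact fiber_notGBA (by omega) hH0 hw0 hg.le p2 hp2 b T hTb
        (fun a ha => hG a (mem_filter.1 (hT ha)).1) (fun a ha => (mem_filter.1 (hT ha)).2.1))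
  rw [card_singleton, pow_one] at b2
  have c2' : ((S.filter fun a => ¬ GB (co a) d g ∧ Nr (co a) d Q (2 * H + 1)).card : ℝ) ≤
      d * (2 * g + 1) * (cN d * (Q : ℝ) ^ 2) * (2 * (H : ℝ) + 1) ^ (MM d - 2) := by
    have hcn := card_Nr (Q := Q) (by omega : 1 ≤ d)
      ((ibox ↥(I d) H).filter fun a => Nr (co a) d Q (2 * H + 1)) (filter_subset _ _)
      (fun a ha => (mem_filter.1 ha).2)
    have e1 : (2 * (H : ℝ) + 1) ^ (MM d - 1) =
        (2 * (H : ℝ) + 1) ^ (MM d - 2) * (2 * (H : ℝ) + 1) := by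
      rw [← pow_succ]
      congr 1
      omega
    refine le_of_mul_le_mul_right (a := 2 * (H : ℝ) + 1) ?_ hX0
    refine b2.trans ?_
    have := cN_pos d
    calc d * (2 * g + 1) *
          (((ibox ↥(I d) H).filter fun a => Nr (co a) d Q (2 * H + 1)).card : ℝ)
        ≤ d * (2 * g + 1) * (cN d * (Q : ℝ) ^ 2 * (2 * (H : ℝ) + 1) ^ (MM d - 1)) := by gcongr
      _ = _ := by
        rw [e1]
        ring
  -- both conditions hold
  have b3 := card_fiber_rel (H := H) (Q := R) (S := S.filter fun a => GB (co a) d g) hR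
    ((filter_subset _ _).trans hS) (J4 d) (hsat' _ (by
      intro p hp
      unfold J4 at hp
      rw [mem_filter] at hp
      omega))
    (B := (MB d w H g Y₁ : ℝ)) (Nat.cast_nonneg _) (by
      intro b T hT hTb
      have hTS : ∀ a ∈ T, a ∈ S := fun a ha => (mem_filter.1 (hT ha)).1
      have h1 := mid_fiberA (H := H) (g := g) hd hH hw hg hYa hYb hYc hY2 b T
        (fun a ha => hR (hS (hTS a ha))) hTb
        (fun a ha => hG a (hTS a ha)) (fun a ha => (mem_filter.1 (hT ha)).2)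
        (fun a ha => hz a (hTS a ha))
      exact_mod_cast h1)
  rw [card_J4] at b3
  have c3' : ((S.filter fun a => GB (co a) d g).card : ℝ) ≤
      (MB d w H g Y₁ : ℝ) * X * (2 * (H : ℝ) + 1) ^ (MM d - (d - 3)) := by
    have e1 : (2 * (H : ℝ) + 1) ^ MM d = (2 * (H : ℝ) + 1) ^ (MM d - (d - 3)) *
        (2 * (H : ℝ) + 1) ^ (d - 3) := by
      rw [← pow_add]
      congr 1
      omega
    refine le_of_mul_le_mul_right (a := (2 * (H : ℝ) + 1) ^ (d - 3)) ?_ (by positivity)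
    refine b3.trans ?_
    calc (MB d w H g Y₁ : ℝ) * (R.card : ℝ)
        ≤ (MB d w H g Y₁ : ℝ) * (X * (2 * (H : ℝ) + 1) ^ MM d) := by gcongr
      _ = _ := by
        rw [e1]
        ring
  have hsub : S ⊆ (S.filter fun a => ¬ GB (co a) d g ∧ ¬ Nr (co a) d Q (2 * H + 1)) ∪
      ((S.filter fun a => ¬ GB (co a) d g ∧ Nr (co a) d Q (2 * H + 1)) ∪
      (S.filter fun a => GB (co a) d g)) := by
    intro a ha
    simp only [mem_union, mem_filter]
    tauto
  have h5 : (S.card : ℝ) ≤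
      ((S.filter fun a => ¬ GB (co a) d g ∧ ¬ Nr (co a) d Q (2 * H + 1)).card : ℝ) +
      (((S.filter fun a => ¬ GB (co a) d g ∧ Nr (co a) d Q (2 * H + 1)).card : ℝ) +
      ((S.filter fun a => GB (co a) d g).card : ℝ)) := by
    have := (card_le_card hsub).trans ((card_union_le _ _).trans (add_le_add le_rfl
      (card_union_le _ _)))
    exact_mod_cast this
  linarith

end Pool.Agent.N656.PC
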