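import Pool.Agent.N656.PC.Lvl

set_option autoImplicit false
set_option linter.unusedSectionVars false

/-! The sum over the levels. -/

open Finset

namespace Pool.Agent.N656.PC

open Pool.Agent.R414.DN Pool.Agent.R414.DS

lemma sum_geo {x : ℝ} (hx : 2 ≤ x) (n : ℕ) : ∑ j ∈ range (n + 1), x ^ j ≤ 2 * x ^ n := by
  induction n with
  | zero => norm_num
  | succ n ih =>
    rw [sum_range_succ, pow_succ]
    have : (0 : ℝ) ≤ x ^ n := by positivity
    nlinarith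

/-- constant of the lower limit of the middle range -/
noncomputable def A2 (d : ℕ) : ℝ := 4992 * KN d 1 ^ 5 * c1 d

/-- constant of the result -/
noncomputable def C2 (d : ℕ) : ℝ := 144 * d * CA d + 2

/-- threshold -/
noncomputable def K2 (d : ℕ) (L₀ : ℝ) : ℝ :=
  6 + 12 * d * cN d + 1280 * s1 d * d * (4 * KN d 1 * L₀ + 1) * CA d

/-- **Middle range with a small constant.** -/
theorem mid_small {d H : ℕ} {r η L₀ Y₀ Y₁ : ℝ} (hd : 7 ≤ d) (hr : r ^ 16 = (H : ℝ))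
    (hr2 : 2 ≤ r) (hη : 0 < η) (hη1 : η ≤ 1) (hL0 : 0 ≤ L₀) (hrη : K2 d L₀ ≤ η ^ 2 * r)
    (hY0 : A2 d * r ^ 52 ≤ η * Y₀) (hlog0 : 0 ≤ Real.log Y₁) (hL : Real.log Y₁ ≤ L₀ * r ^ 8)
    {S : Finset (Cf d)} (hS : S ⊆ ibox ↥(I d) H) (hG : ∀ a ∈ S, GA (co a) d H (r ^ 9))
    (hz : ∀ a ∈ S, ∃ x y : ℤ, Fv (co a) d x y = 0 ∧ |x| ≤ |y| ∧ Y₀ ≤ |(y : ℝ)| ∧
      |(y : ℝ)| ≤ Y₁) :
    (S.card : ℝ) ≤ C2 d * η * (2 * (H : ℝ) + 1) ^ (MM d - 1) := by
  classical
  have hr1 : 1 ≤ r := by linarith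
  have hr0 : 0 < r := by linarith
  have hH' : (1 : ℝ) ≤ H := by
    rw [← hr]
    exact one_le_pow₀ hr1
  have hH : 1 ≤ H := by exact_mod_cast hH'
  have hH0 : (0 : ℝ) < H := by linarith
  have hc1 := c1_pos d
  have hK := KN_one (d := d) (le_refl (1 : ℝ))
  have hX : (1 : ℝ) ≤ 2 * (H : ℝ) + 1 := by linarith
  have hX0 : (0 : ℝ) < 2 * (H : ℝ) + 1 := by linarith
  have hMd := MM_pos d
  have hs1 := s1_one d
  have hCA := CA_one d
  have hcN := cN_pos d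
  have hsqrt : Real.sqrt H = r ^ 8 := by
    rw [← hr]
    rw [show r ^ 16 = (r ^ 8) ^ 2 by ring]
    exact Real.sqrt_sq (by positivity)
  have hd0 : (0 : ℝ) < d := by
    have : 0 < d := by omega
    exact_mod_cast this
  -- the parts of the threshold
  obtain ⟨E1, hE1⟩ : ∃ E1 : ℝ, E1 = 12 * d * cN d := ⟨_, rfl⟩
  obtain ⟨E2, hE2⟩ : ∃ E2 : ℝ, E2 = 8 * s1 d * d * (4 * KN d 1 * L₀ + 1) := ⟨_, rfl⟩
  have hE10 : 0 ≤ E1 := by rw [hE1]; positivity
  have hE20 : 0 ≤ E2 := by rw [hE2]; positivity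
  have hK2 : K2 d L₀ = 6 + E1 + 160 * E2 * CA d := by
    unfold K2
    rw [hE1, hE2]
    ring
  rw [hK2] at hrη
  have hE2C : 0 ≤ 160 * E2 * CA d := by positivity
  have hηr : η ^ 2 * r ≤ η * r := by
    have : η ^ 2 ≤ η := by
      rw [pow_two]
      exact mul_le_of_le_one_left hη.le hη1
    gcongr
  have hη6 : 6 ≤ η * r := by linarith
  have hηE1 : E1 ≤ η * r := by linarith
  have hηE2 : 160 * E2 * CA d ≤ η ^ 2 * r := by linarith
  -- levels
  obtain ⟨n, hn1, hn2⟩ := exists_nat_pow_near (one_le_pow₀ hr1 : 1 ≤ r ^ 9) (one_lt_two (α := ℝ))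
  obtain ⟨N, hN⟩ : ∃ N, N = n + 1 := ⟨_, rfl⟩
  rw [← hN] at hn2
  have hN1 : (2 : ℝ) ^ N ≤ 2 * r ^ 9 := by
    rw [hN, pow_succ]
    linarith
  have hsq : ∀ j : ℕ, ((2 : ℝ) ^ j) ^ 2 = 4 ^ j := by
    intro j
    rw [← pow_mul, mul_comm, pow_mul]
    norm_num
  have hfo : ∀ j : ℕ, ((2 : ℝ) ^ j) ^ 4 = 16 ^ j := by
    intro j
    rw [← pow_mul, mul_comm, pow_mul]
    norm_num
  have hN4 : (4 : ℝ) ^ N ≤ 4 * r ^ 18 := by
    rw [← hsq]
    calc ((2 : ℝ) ^ N) ^ 2 ≤ (2 * r ^ 9) ^ 2 := by gcongr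
      _ = _ := by ring
  have hN16 : (16 : ℝ) ^ N ≤ 16 * r ^ 36 := by
    rw [← hfo]
    calc ((2 : ℝ) ^ N) ^ 4 ≤ (2 * r ^ 9) ^ 4 := by gcongr
      _ = _ := by ring
  -- the denominators
  obtain ⟨Q, hQ⟩ : ∃ Q : ℕ, Q = ⌊r ^ 2⌋₊ := ⟨_, rfl⟩
  have hQle : (Q : ℝ) ≤ r ^ 2 := by rw [hQ]; exact Nat.floor_le (by positivity)
  have hr4 : 4 ≤ r ^ 2 := by
    calc (4 : ℝ) = 2 ^ 2 := by norm_num
      _ ≤ r ^ 2 := by gcongr
  have hrr : r ≤ r ^ 2 := le_self_pow₀ hr1 (by norm_num)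
  have hQge : r ^ 2 / 2 ≤ Q := by
    have h1 : r ^ 2 < (Q : ℝ) + 1 := by rw [hQ]; exact Nat.lt_floor_add_one _
    linarith
  have hQ1 : 1 ≤ Q := by
    have : (1 : ℝ) ≤ Q := by linarith
    exact_mod_cast this
  have hQ0 : (0 : ℝ) < Q := by exact_mod_cast hQ1
  have h3Q : 3 / (Q : ℝ) ≤ η := by
    rw [div_le_iff₀ hQ0]
    have h2 : η * (r / 2) ≤ η * Q := by
      gcongr
      linarith
    linarith
  have h3L : 3 / (2 * (H : ℝ) + 1) ≤ η := by
    rw [div_le_iff₀ hX0]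
    have h1 : r ≤ (H : ℝ) := by
      rw [← hr]
      exact le_self_pow₀ hr1 (by norm_num)
    have h2 : η * r ≤ η * (2 * (H : ℝ) + 1) := by
      gcongr
      linarith
    linarith
  obtain ⟨R, hR⟩ : ∃ R : ℕ → Finset (Cf d), R = fun j => (ibox ↥(I d) H).filter fun a =>
    j = 0 ∨ ¬ GA (co a) d H (2 ^ (j - 1)) := ⟨_, rfl⟩
  have hsub : S ⊆ (range (N + 1)).biUnion fun j => S.filter fun a =>
      a ∈ R j ∧ GA (co a) d H (2 ^ j) := by
    intro a ha
    have h1 : GA (co a) d H (2 ^ N) := GA_mono hH0.le (by positivity) hn2.le (hG a ha)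
    have hex : ∃ j, GA (co a) d H (2 ^ j) := ⟨N, h1⟩
    have h2 := Nat.find_spec hex
    have h3 := Nat.find_min' hex h1
    rw [mem_biUnion]
    refine ⟨Nat.find hex, by rw [mem_range]; omega, ?_⟩
    rw [mem_filter]
    refine ⟨ha, ?_, h2⟩
    rw [hR, mem_filter]
    refine ⟨hS ha, ?_⟩
    rcases Nat.eq_zero_or_pos (Nat.find hex) with h4 | h4
    · exact Or.inl h4
    · right
      exact Nat.find_min hex (by omega)
  have hY00 : 0 < Y₀ := by
    have h1 : 0 < A2 d * r ^ 52 := by unfold A2; positivity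
    have h2 : 0 < η * Y₀ := lt_of_lt_of_le h1 hY0
    exact (mul_pos_iff_of_pos_left hη).1 h2
  have hY01 : A2 d * r ^ 52 ≤ Y₀ := by
    refine hY0.trans ?_
    calc η * Y₀ ≤ 1 * Y₀ := by gcongr
      _ = Y₀ := one_mul _
  have hKd : 2 * d * c1 d ≤ KN d 1 := by
    have h1 := (KN_ge (d := d) (le_refl (1 : ℝ))).1
    unfold WW at h1
    linarith
  -- the levels
  obtain ⟨T1, hT1⟩ : ∃ T1 : ℝ, T1 = d * (4 * CA d) * (4 * η + 3 / Q + 3 / (2 * (H : ℝ) + 1)) *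
    (2 * (H : ℝ) + 1) ^ (MM d - 1) := ⟨_, rfl⟩
  obtain ⟨T2, hT2⟩ : ∃ T2 : ℝ, T2 = d * 3 * (cN d * (Q : ℝ) ^ 2) *
    (2 * (H : ℝ) + 1) ^ (MM d - 2) := ⟨_, rfl⟩
  obtain ⟨T3, hT3⟩ : ∃ T3 : ℝ, T3 = E2 / η * H * (4 * CA d) *
    (2 * (H : ℝ) + 1) ^ (MM d - (d - 3)) := ⟨_, rfl⟩
  have hlev : ∀ j ∈ range (N + 1), ((S.filter fun a => a ∈ R j ∧ GA (co a) d H (2 ^ j)).card : ℝ) ≤
      T1 * (1 / 2 ^ j) + T1 / H * 2 ^ j + T2 * 2 ^ j + T3 * 4 ^ j + T3 / H * 16 ^ j := by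
    intro j hj
    rw [mem_range] at hj
    obtain ⟨w, hwd⟩ : ∃ w : ℝ, w = 2 ^ j := ⟨_, rfl⟩
    have hw : (1 : ℝ) ≤ w := by rw [hwd]; exact one_le_pow₀ (by norm_num)
    have hw0 : 0 < w := by linarith
    have hwr : w ≤ 2 * r ^ 9 := by
      rw [hwd]
      exact (pow_le_pow_right₀ (by norm_num) (by omega)).trans hN1
    have hRb : R j ⊆ ibox ↥(I d) H := by rw [hR]; exact filter_subset _ _
    have hcardR : ((R j).card : ℝ) ≤ (4 * CA d * (1 / w ^ 2 + 1 / H)) *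
        (2 * (H : ℝ) + 1) ^ MM d := by
      rcases Nat.eq_zero_or_pos j with h0 | h0
      · have h1 : (R j).card ≤ (2 * H + 1) ^ MM d := by
          have h2 := card_le_card hRb
          rw [card_ibox] at h2
          exact h2
        have h2 : ((R j).card : ℝ) ≤ (2 * (H : ℝ) + 1) ^ MM d := by exact_mod_cast h1
        have h3 : 1 ≤ 4 * CA d * (1 / w ^ 2 + 1 / H) := by
          rw [hwd, h0]
          have h4 : (0 : ℝ) ≤ 1 / H := by positivity
          rw [pow_zero, one_pow, div_one]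
          calc (1 : ℝ) ≤ 4 * 1 * (1 + 0) := by norm_num
            _ ≤ _ := by gcongr
        refine h2.trans (le_mul_of_one_le_left (by positivity) h3)
      · have h1 := card_notGA' (H := H) (d := d) (by omega : 1 ≤ d) hH
          (one_le_pow₀ (by norm_num) : (1 : ℝ) ≤ 2 ^ (j - 1)) (R j) hRb (by
            intro a ha
            rw [hR, mem_filter] at ha
            exact ha.2.resolve_left (by omega))
        refine h1.trans ?_
        have h2 : w = 2 * 2 ^ (j - 1) := by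
          rw [hwd, ← pow_succ']
          congr 1
          omega
        have h3 : 1 / ((2 : ℝ) ^ (j - 1)) ^ 2 = 4 * (1 / w ^ 2) := by
          rw [h2]
          field_simp
          norm_num
        rw [h3]
        have h4 : (1 : ℝ) / H ≤ 4 * (1 / H) := by
          have : (0 : ℝ) ≤ 1 / H := by positivity
          linarith
        calc CA d * (4 * (1 / w ^ 2) + 1 / H) * (2 * (H : ℝ) + 1) ^ MM d
            ≤ CA d * (4 * (1 / w ^ 2) + 4 * (1 / H)) * (2 * (H : ℝ) + 1) ^ MM d := by gcongr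
          _ = _ := by ring
    have h52 : ∀ m : ℕ, m ≤ 52 → r ^ m ≤ r ^ 52 := fun m hm => pow_le_pow_right₀ hr1 hm
    have hYa : 4 * d ^ 2 * c1 d ^ 2 * w ^ 2 ≤ Y₀ := by
      refine le_trans ?_ hY01
      calc 4 * d ^ 2 * c1 d ^ 2 * w ^ 2 = 1 * (2 * d * c1 d) ^ 2 * 1 * w ^ 2 := by ring
        _ ≤ 1 * KN d 1 ^ 5 * c1 d * (2 * r ^ 9) ^ 2 := by
          have h1 : (2 * d * c1 d) ^ 2 ≤ KN d 1 ^ 5 :=
            (pow_le_pow_left₀ (by positivity) hKd 2).trans (pow_le_pow_right₀ hK (by norm_num))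
          gcongr
        _ = 4 * KN d 1 ^ 5 * c1 d * r ^ 18 := by ring
        _ ≤ 4992 * KN d 1 ^ 5 * c1 d * r ^ 52 := by
          have := h52 18 (by norm_num)
          gcongr
          norm_num
    have hYb : 156 * KN d w ^ 3 ≤ Y₀ := by
      refine le_trans ?_ hY01
      rw [KN_scale, mul_pow]
      calc 156 * (KN d 1 ^ 3 * w ^ 3) ≤ 156 * (KN d 1 ^ 5 * (2 * r ^ 9) ^ 3) := by
            have h1 : KN d 1 ^ 3 ≤ KN d 1 ^ 5 := pow_le_pow_right₀ hK (by norm_num)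
            gcongr
        _ = 1248 * KN d 1 ^ 5 * 1 * r ^ 27 := by ring
        _ ≤ 4992 * KN d 1 ^ 5 * c1 d * r ^ 52 := by
          have := h52 27 (by norm_num)
          gcongr
          norm_num
    have hYc : 312 * KN d w ^ 5 ≤ (η * w) / (c1 d * H) * Y₀ := by
      rw [div_mul_eq_mul_div, le_div_iff₀ (by positivity), KN_scale, mul_pow]
      calc 312 * (KN d 1 ^ 5 * w ^ 5) * (c1 d * H)
          = w * (312 * KN d 1 ^ 5 * c1 d * (w ^ 4 * H)) := by ring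
        _ ≤ w * (312 * KN d 1 ^ 5 * c1 d * ((2 * r ^ 9) ^ 4 * r ^ 16)) := by
          rw [hr]
          gcongr
        _ = w * (A2 d * r ^ 52) := by unfold A2; ring
        _ ≤ w * (η * Y₀) := by gcongr
        _ = _ := by ring
    have hY2 : 2 * (H : ℝ) < Y₀ := by
      refine lt_of_lt_of_le ?_ hY01
      rw [← hr]
      have h1 := h52 16 (by norm_num)
      have h2 : 1 ≤ KN d 1 ^ 5 := one_le_pow₀ hK
      have h3 : 0 < r ^ 52 := by positivity
      calc 2 * r ^ 16 ≤ 2 * r ^ 52 := by gcongr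
        _ < 4992 * 1 * 1 * r ^ 52 := by linarith
        _ ≤ 4992 * KN d 1 ^ 5 * c1 d * r ^ 52 := by gcongr
    have h1 := level_small (H := H) (w := w) (g := η * w) (Y₀ := Y₀) (Y₁ := Y₁)
      (X := 4 * CA d * (1 / w ^ 2 + 1 / H)) (by omega : 4 ≤ d) hH hw (by positivity) hQ1
      hYa hYb hYc hY2 hRb
      (S := S.filter fun a => a ∈ R j ∧ GA (co a) d H (2 ^ j))
      (fun a ha => (mem_filter.1 ha).2.1) (by
        intro a ha b hb hab
        rw [hR, mem_filter] at ha ⊢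
        refine ⟨hb, ?_⟩
        rcases ha.2 with h2 | h2
        · exact Or.inl h2
        · right
          intro h3
          exact h2 (GA_congr hab h3)) hcardR (fun a ha => hz a (mem_filter.1 ha).1)
        (fun a ha => by rw [hwd]; exact (mem_filter.1 ha).2.2)
    have hMB := MB_leA (d := d) (w := w) (Y₁ := Y₁) (L := L₀) (η := η) hH hw hη hη1 hL0 hlog0
      (by rw [hsqrt]; exact hL)
    rw [← hE2] at hMB
    refine h1.trans ?_
    have i1 : d * (4 * CA d * (1 / w ^ 2 + 1 / H)) *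
        (4 * (η * w) + 3 / Q + 3 / (2 * (H : ℝ) + 1)) * (2 * (H : ℝ) + 1) ^ (MM d - 1) ≤
        T1 * (1 / 2 ^ j) + T1 / H * 2 ^ j := by
      rw [hT1, ← hwd]
      calc d * (4 * CA d * (1 / w ^ 2 + 1 / H)) *
          (4 * (η * w) + 3 / Q + 3 / (2 * (H : ℝ) + 1)) * (2 * (H : ℝ) + 1) ^ (MM d - 1)
          ≤ d * (4 * CA d * (1 / w ^ 2 + 1 / H)) *
          (4 * (η * w) + 3 / Q * w + 3 / (2 * (H : ℝ) + 1) * w) *
            (2 * (H : ℝ) + 1) ^ (MM d - 1) := by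
            have j1 : 3 / (Q : ℝ) ≤ 3 / Q * w := le_mul_of_one_le_right (by positivity) hw
            have j2 : 3 / (2 * (H : ℝ) + 1) ≤ 3 / (2 * (H : ℝ) + 1) * w :=
              le_mul_of_one_le_right (by positivity) hw
            gcongr
        _ = _ := by
            field_simp
    have i2 : d * (2 * (η * w) + 1) * (cN d * (Q : ℝ) ^ 2) * (2 * (H : ℝ) + 1) ^ (MM d - 2) ≤
        T2 * 2 ^ j := by
      rw [hT2, ← hwd]
      calc d * (2 * (η * w) + 1) * (cN d * (Q : ℝ) ^ 2) * (2 * (H : ℝ) + 1) ^ (MM d - 2)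
          ≤ d * (3 * w) * (cN d * (Q : ℝ) ^ 2) * (2 * (H : ℝ) + 1) ^ (MM d - 2) := by
            have j1 : 2 * (η * w) + 1 ≤ 3 * w := by
              have : η * w ≤ 1 * w := by gcongr
              linarith
            gcongr
        _ = _ := by ring
    have i3 : (MB d w H (η * w) Y₁ : ℝ) * (4 * CA d * (1 / w ^ 2 + 1 / H)) *
        (2 * (H : ℝ) + 1) ^ (MM d - (d - 3)) ≤ T3 * 4 ^ j + T3 / H * 16 ^ j := by
      rw [hT3, ← hsq, ← hfo, ← hwd]
      calc (MB d w H (η * w) Y₁ : ℝ) * (4 * CA d * (1 / w ^ 2 + 1 / H)) *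
          (2 * (H : ℝ) + 1) ^ (MM d - (d - 3))
          ≤ (E2 / η * (w ^ 4 * H)) * (4 * CA d * (1 / w ^ 2 + 1 / H)) *
          (2 * (H : ℝ) + 1) ^ (MM d - (d - 3)) := by gcongr
        _ = _ := by
            field_simp
    linarith
  have hcard : (S.card : ℝ) ≤
      ∑ j ∈ range (N + 1), ((S.filter fun a => a ∈ R j ∧ GA (co a) d H (2 ^ j)).card : ℝ) := by
    have h1 := (card_le_card hsub).trans card_biUnion_le
    exact_mod_cast h1
  refine hcard.trans ((sum_le_sum hlev).trans ?_)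
  rw [sum_add_distrib, sum_add_distrib, sum_add_distrib, sum_add_distrib, ← mul_sum, ← mul_sum,
    ← mul_sum, ← mul_sum, ← mul_sum]
  have t1 := sum_half (N + 1)
  have t2 := sum_geo (le_refl (2 : ℝ)) N
  have t4 := sum_geo (by norm_num : (2 : ℝ) ≤ 4) N
  have t16 := sum_geo (by norm_num : (2 : ℝ) ≤ 16) N
  have hT10 : 0 ≤ T1 := by rw [hT1]; positivity
  have hT20 : 0 ≤ T2 := by rw [hT2]; positivity
  have hT30 : 0 ≤ T3 := by rw [hT3]; positivity
  -- first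
  have u1 : T1 * ∑ j ∈ range (N + 1), (1 / (2 : ℝ) ^ j) + T1 / H * ∑ j ∈ range (N + 1), (2 : ℝ) ^ j
      ≤ 144 * d * CA d * η * (2 * (H : ℝ) + 1) ^ (MM d - 1) := by
    have v1 : T1 / H * ∑ j ∈ range (N + 1), (2 : ℝ) ^ j ≤ T1 * 4 := by
      calc T1 / H * ∑ j ∈ range (N + 1), (2 : ℝ) ^ j ≤ T1 / H * (2 * (2 * r ^ 9)) := by
            gcongr
            exact t2.trans (by linarith)
        _ ≤ T1 / H * (4 * H) := by
            have h9 : r ^ 9 ≤ (H : ℝ) := by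
              rw [← hr]
              exact pow_le_pow_right₀ hr1 (by norm_num)
            have h9' : 2 * (2 * r ^ 9) ≤ 4 * (H : ℝ) := by linarith
            exact mul_le_mul_of_nonneg_left h9' (by positivity)
        _ = T1 * 4 := by field_simp
    have v2 : T1 * ∑ j ∈ range (N + 1), (1 / (2 : ℝ) ^ j) ≤ T1 * 2 := by gcongr
    have v3 : T1 ≤ d * (4 * CA d) * (6 * η) * (2 * (H : ℝ) + 1) ^ (MM d - 1) := by
      rw [hT1]
      gcongr
      linarith
    have v4 : d * (4 * CA d) * (6 * η) * (2 * (H : ℝ) + 1) ^ (MM d - 1) * 6 =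
      144 * d * CA d * η * (2 * (H : ℝ) + 1) ^ (MM d - 1) := by ring
    linarith
  -- second
  have u2 : T2 * ∑ j ∈ range (N + 1), (2 : ℝ) ^ j ≤ η * (2 * (H : ℝ) + 1) ^ (MM d - 1) := by
    have e1 : (2 * (H : ℝ) + 1) ^ (MM d - 1) =
        (2 * (H : ℝ) + 1) ^ (MM d - 2) * (2 * (H : ℝ) + 1) := by
      rw [← pow_succ]
      congr 1
      omega
    calc T2 * ∑ j ∈ range (N + 1), (2 : ℝ) ^ j ≤ T2 * (2 * (2 * r ^ 9)) := by
          gcongr
          exact t2.trans (by linarith)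
      _ = E1 * ((Q : ℝ) ^ 2 * r ^ 9) * (2 * (H : ℝ) + 1) ^ (MM d - 2) := by
          rw [hT2, hE1]
          ring
      _ ≤ (η * r) * ((r ^ 2) ^ 2 * r ^ 9) * (2 * (H : ℝ) + 1) ^ (MM d - 2) := by gcongr
      _ = η * ((2 * (H : ℝ) + 1) ^ (MM d - 2) * r ^ 14) := by ring
      _ ≤ η * ((2 * (H : ℝ) + 1) ^ (MM d - 2) * (2 * (H : ℝ) + 1)) := by
          have : r ^ 14 ≤ 2 * (H : ℝ) + 1 := by
            have h1 : r ^ 14 ≤ (H : ℝ) := by
              rw [← hr]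
              exact pow_le_pow_right₀ hr1 (by norm_num)
            linarith
          gcongr
      _ = _ := by rw [e1]
  -- third
  have u3 : T3 * ∑ j ∈ range (N + 1), (4 : ℝ) ^ j + T3 / H * ∑ j ∈ range (N + 1), (16 : ℝ) ^ j
      ≤ η * (2 * (H : ℝ) + 1) ^ (MM d - 1) := by
    have v1 : T3 * ∑ j ∈ range (N + 1), (4 : ℝ) ^ j ≤ T3 * (8 * r ^ 20) := by
      have : r ^ 18 ≤ r ^ 20 := pow_le_pow_right₀ hr1 (by norm_num)
      gcongr
      refine t4.trans ?_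
      linarith
    have v2 : T3 / H * ∑ j ∈ range (N + 1), (16 : ℝ) ^ j ≤ T3 * (32 * r ^ 20) := by
      calc T3 / H * ∑ j ∈ range (N + 1), (16 : ℝ) ^ j ≤ T3 / H * (2 * (16 * r ^ 36)) := by
            gcongr
            exact t16.trans (by linarith)
        _ = T3 * (32 * r ^ 20) := by
            rw [← hr]
            field_simp
            ring
    have e1 : (2 * (H : ℝ) + 1) ^ (MM d - 1) =
        (2 * (H : ℝ) + 1) ^ (MM d - (d - 3)) * (2 * (H : ℝ) + 1) ^ (d - 4) := by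
      rw [← pow_add]
      congr 1
      omega
    have e2 : r ^ 37 ≤ (2 * (H : ℝ) + 1) ^ (d - 4) := by
      calc r ^ 37 ≤ r ^ 48 := pow_le_pow_right₀ hr1 (by norm_num)
        _ = (r ^ 16) ^ 3 := by ring
        _ = (H : ℝ) ^ 3 := by rw [hr]
        _ ≤ (2 * (H : ℝ) + 1) ^ 3 := by
          gcongr
          linarith
        _ ≤ _ := pow_le_pow_right₀ hX (by omega)
    calc T3 * ∑ j ∈ range (N + 1), (4 : ℝ) ^ j + T3 / H * ∑ j ∈ range (N + 1), (16 : ℝ) ^ j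
        ≤ T3 * (40 * r ^ 20) := by linarith
      _ = E2 / η * r ^ 16 * (4 * CA d) *
          (2 * (H : ℝ) + 1) ^ (MM d - (d - 3)) * (40 * r ^ 20) := by rw [hT3, hr]
      _ = (160 * E2 * CA d) / η * (r ^ 36) * (2 * (H : ℝ) + 1) ^ (MM d - (d - 3)) := by
          ring
      _ ≤ (η ^ 2 * r) / η * (r ^ 36) * (2 * (H : ℝ) + 1) ^ (MM d - (d - 3)) := by gcongr
      _ = η * ((2 * (H : ℝ) + 1) ^ (MM d - (d - 3)) * r ^ 37) := by
          field_simp
      _ ≤ η * ((2 * (H : ℝ) + 1) ^ (MM d - (d - 3)) * (2 * (H : ℝ) + 1) ^ (d - 4)) := by gcongr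
      _ = _ := by rw [e1]
  have hfin : C2 d * η * (2 * (H : ℝ) + 1) ^ (MM d - 1) =
      144 * d * CA d * η * (2 * (H : ℝ) + 1) ^ (MM d - 1) +
      η * (2 * (H : ℝ) + 1) ^ (MM d - 1) + η * (2 * (H : ℝ) + 1) ^ (MM d - 1) := by
    unfold C2
    ring
  rw [hfin]
  linarith

end Pool.Agent.N656.PC
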