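import Pool.Agent.N656.PC.Blk

set_option autoImplicit false
set_option linter.unusedSectionVars false

/-! The middle range without a condition on rational zeros (adapted from `R414.DS.Mid2`, `Lev`). -/

open Finset

namespace Pool.Agent.N656.PC

open Pool.Agent.R414.DN Pool.Agent.R414.DS

lemma mem_rtsA {c : ℕ → ℕ → ℤ} {d : ℕ} {H w : ℝ} (hH : 0 < H) (hw : 0 < w) (hG : GA c d H w)
    {α : ℝ} (h : TT c d 0 α = 0) : α ∈ rts c d := by
  unfold rts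
  rw [Multiset.mem_toFinset, Polynomial.mem_roots]
  · rw [Polynomial.IsRoot, Polynomial.eval_finsetSum, ← h, TT_zero]
    refine sum_congr rfl fun j _ => ?_
    simp
  · intro h0
    have hz : ∀ j ∈ range (d + 1), c d j = 0 := by
      intro j hj
      have h1 := congrArg (fun p : Polynomial ℝ => p.coeff j) h0
      simp only [Polynomial.finsetSum_coeff, Polynomial.coeff_C_mul_X_pow,
        Polynomial.coeff_zero] at h1
      rw [sum_ite_eq, if_pos hj] at h1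
      exact_mod_cast h1
    have hT : ∀ i t, TT c d i t = 0 := by
      intro i t
      unfold TT
      apply sum_eq_zero
      intro j hj
      rw [hz j hj]
      simp
    have h1 := hG 0 (by norm_num)
    rw [hT, hT, abs_zero] at h1
    have h2 : 0 < H / w ^ 2 := by positivity
    have h3 : 0 < H / w := by positivity
    rcases h1 with h1 | h1 <;> linarith

/-- **Few points in the middle range.** -/
theorem card_midA {d : ℕ} {w H g Y₀ Y₁ : ℝ} (hd : 4 ≤ d) (hw : 1 ≤ w) (hH : 1 ≤ H) (hg : 0 < g)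
    (hYa : 4 * d ^ 2 * c1 d ^ 2 * w ^ 2 ≤ Y₀) (hYb : 156 * KN d w ^ 3 ≤ Y₀)
    (hYc : 312 * KN d w ^ 5 ≤ g / (c1 d * H) * Y₀) {c₀ : ℕ → ℕ → ℤ}
    (hc : ∀ k i, |(c₀ k i : ℝ)| ≤ H) (hG1 : GA c₀ d H w) (hG2 : GB c₀ d g)
    (T : Finset (ℤ × ℤ)) (hT : ∀ P ∈ T, IsMid c₀ d H Y₀ Y₁ P) :
    T.card ≤ ⌊2 * Real.sqrt (BB d w H g) + 2⌋₊ *
      (d * (2 * (⌊4 * KN d w * Real.log Y₁⌋₊ + 1))) := by
  classical
  have hK := KN_one (d := d) hw
  have hcp := c1_pos d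
  have hY0 : 1 ≤ Y₀ := by
    have h2 : 1 ≤ KN d w ^ 3 := one_le_pow₀ hK
    linarith
  have hBB : 0 ≤ BB d w H g := by unfold BB; positivity
  choose! a ha using fun P (hP : P ∈ T) => exists_goodS hd hw hH hYa hYb hG1 (hT P hP)
  have hyT : ∀ P ∈ T, Y₀ ≤ |(P.2 : ℝ)| ∧ |(P.2 : ℝ)| ≤ Y₁ := by
    intro P hP
    obtain ⟨c, -, -, -, -, h1, h2⟩ := hT P hP
    exact ⟨h1, h2⟩
  have key := card_le_mul_card_image_of_maps_to (s := T)
    (t := rts c₀ d ×ˢ ((univ : Finset Bool) ×ˢ range (⌊4 * KN d w * Real.log Y₁⌋₊ + 1)))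
    (f := fun P => (a P, decide (0 < P.2), ⌊4 * KN d w * Real.log |(P.2 : ℝ)|⌋₊)) ?_
    ⌊2 * Real.sqrt (BB d w H g) + 2⌋₊ ?_
  · refine key.trans ?_
    rw [card_product, card_product, card_range, card_univ, Fintype.card_bool]
    have := card_rts c₀ d
    gcongr
  · intro P hP
    rw [mem_product, mem_product, mem_range]
    refine ⟨mem_rtsA (by linarith) (by linarith) hG1 (ha P hP).2.1, mem_univ _, ?_⟩
    rw [Nat.lt_succ_iff]
    apply Nat.floor_le_floor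
    have h1 := hyT P hP
    have h2 : Real.log |(P.2 : ℝ)| ≤ Real.log Y₁ := Real.log_le_log (by linarith) h1.2
    gcongr
  · rintro ⟨α, b, n⟩ _
    rw [Nat.le_floor_iff (by positivity)]
    have hmem : ∀ P ∈ T.filter (fun P => (a P, decide (0 < P.2),
        ⌊4 * KN d w * Real.log |(P.2 : ℝ)|⌋₊) = (α, b, n)), P ∈ T ∧ GoodS c₀ d w H P α ∧
        decide (0 < P.2) = b ∧ ⌊4 * KN d w * Real.log |(P.2 : ℝ)|⌋₊ = n := by
      intro P hP
      rw [mem_filter] at hP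
      obtain ⟨hP, rP⟩ := hP
      simp only [Prod.mk.injEq] at rP
      refine ⟨hP, ?_, rP.2.1, rP.2.2⟩
      rw [← rP.1]
      exact ha P hP
    obtain ⟨W, hW⟩ : ∃ W, W = T.filter (fun P => (a P, decide (0 < P.2),
        ⌊4 * KN d w * Real.log |(P.2 : ℝ)|⌋₊) = (α, b, n)) := ⟨_, rfl⟩
    rw [← hW] at hmem ⊢
    have hcard : W.card = (W.image fun P => P.2).card := by
      rw [card_image_of_injOn]
      intro P hP Q hQ hPQ
      obtain ⟨p1, p2, -, -⟩ := hmem P hP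
      obtain ⟨q1, q2, -, -⟩ := hmem Q hQ
      exact goodS_inj hd hw hH hYb p2 q2 (hyT P p1).1 hPQ
    rw [hcard]
    apply card_of_triples hBB
    intro y1 hy1 y2 hy2 y3 hy3 h12 h23
    rw [mem_image] at hy1 hy2 hy3
    obtain ⟨P1, hP1, rfl⟩ := hy1
    obtain ⟨P2, hP2, rfl⟩ := hy2
    obtain ⟨P3, hP3, rfl⟩ := hy3
    obtain ⟨p1, p2, p3, p4⟩ := hmem P1 hP1
    obtain ⟨q1, q2, q3, q4⟩ := hmem P2 hP2
    obtain ⟨r1, r2, r3, r4⟩ := hmem P3 hP3
    refine gaps hd hw hH hg hYb hYc hc hG2 p2 q2 r2 (hyT P1 p1).1 (hyT P3 r1).1 h12 h23 ?_ ?_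
    · have : decide (0 < P1.2) = decide (0 < P3.2) := by rw [p3, r3]
      simpa using this
    · rw [p4, r4]


lemma mid_fiberA {d H : ℕ} {w g Y₀ Y₁ : ℝ} (hd : 4 ≤ d) (hH : 1 ≤ H) (hw : 1 ≤ w) (hg : 0 < g)
    (hYa : 4 * d ^ 2 * c1 d ^ 2 * w ^ 2 ≤ Y₀) (hYb : 156 * KN d w ^ 3 ≤ Y₀)
    (hYc : 312 * KN d w ^ 5 ≤ g / (c1 d * H) * Y₀) (hY2 : 2 * (H : ℝ) < Y₀)
    (b : Cf d) (T : Finset (Cf d)) (hT : T ⊆ ibox ↥(I d) H)
    (hTb : ∀ a ∈ T, ∀ i ∉ J4 d, a i = b i)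
    (hA : ∀ a ∈ T, GA (co a) d H w)
    (hB : ∀ a ∈ T, GB (co a) d g)
    (hz : ∀ a ∈ T, ∃ x y : ℤ, Fv (co a) d x y = 0 ∧ |x| ≤ |y| ∧ Y₀ ≤ |(y : ℝ)| ∧
      |(y : ℝ)| ≤ Y₁) :
    T.card ≤ MB d w H g Y₁ := by
  classical
  rcases T.eq_empty_or_nonempty with h0 | ⟨a₀, h0⟩
  · rw [h0, card_empty]
    exact Nat.zero_le _
  have hH' : (1 : ℝ) ≤ H := by exact_mod_cast hH
  choose! x y hxy using hz
  have htop : ∀ a ∈ T, TopEq d (co a) (co a₀) := by
    intro a ha k i hk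
    by_cases hmem : (k, i) ∈ I d
    · rw [co_of_mem a hmem, co_of_mem a₀ hmem]
      have hnJ : (⟨(k, i), hmem⟩ : ↥(I d)) ∉ J4 d := by
        unfold J4
        rw [mem_filter]
        rintro ⟨-, -, h⟩
        have h' : k + 4 ≤ d := h
        omega
      rw [hTb a ha _ hnJ, hTb a₀ h0 _ hnJ]
    · unfold co
      rw [dif_neg hmem, dif_neg hmem]
  unfold MB
  rw [← card_image_of_injOn (f := fun a => (x a, y a))]
  · apply card_midA hd hw hH' hg hYa hYb hYc (co_le' (hT h0)) (hA a₀ h0) (hB a₀ h0)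
    intro P hP
    rw [mem_image] at hP
    obtain ⟨a, ha, rfl⟩ := hP
    obtain ⟨e1, e2, e3, e4⟩ := hxy a ha
    exact ⟨co a, htop a ha, co_le' (hT ha), e1, e2, e3, e4⟩
  · intro a ha a' ha' haa
    rw [mem_coe] at ha ha'
    have e1 := hxy a ha
    have e2 := hxy a' ha'
    simp only [Prod.mk.injEq] at haa
    rw [← haa.1, ← haa.2] at e2
    apply low_det hd (hT ha) (hT ha') ?_ ?_ e1.1 e2.1
    · intro p hp
      rw [hTb a ha p hp, hTb a' ha' p hp]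
    · have h3 : 2 * (H : ℝ) < |(y a : ℝ)| := lt_of_lt_of_le hY2 e1.2.2.1
      rw [← Int.cast_abs, Int.abs_eq_natAbs, Int.cast_natCast] at h3
      exact_mod_cast h3

end Pool.Agent.N656.PC
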