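import Pool.Agent.R414.DS.Fin3

set_option autoImplicit false

/-!
Project PC: the limit law of the integer point of a random plane curve (all curves of degree `≤ d`,
no condition at infinity).  Statements of the two independent parts.
-/

open Finset

namespace Pool.Agent.N656.PC

open Pool.Agent.R414.DN Pool.Agent.R414.DS

/-- **BLK.** Among at most `L` consecutive integers `n`, those with `n t + c` within `δ` of an integer
number at most `4 L δ + 3 L / q + 3`, if `|t - p / q| ≤ 1 / (q L)`, `gcd(p, q) = 1`, `1 ≤ q ≤ L`. -/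
def S_BLK : Prop := ∀ (t c δ : ℝ) (L q : ℕ) (p : ℤ), 0 ≤ δ → 1 ≤ q → q ≤ L → IsCoprime p (q : ℤ) →
  |t - p / q| ≤ 1 / (q * L) → ∀ (A : ℤ) (N : Finset ℤ),
    (∀ n ∈ N, (A ≤ n ∧ n < A + L) ∧ ∃ u : ℤ, |(u : ℝ) + n * t + c| ≤ δ) →
    (N.card : ℝ) ≤ 4 * L * δ + 3 * (L / q) + 3

/-- **RED.** The polynomials with nonzero form of degree `d` that are reducible over `ℚ` are few. -/
def S_RED : Prop := ∀ d : ℕ, 4 ≤ d → ∃ C : ℝ, 0 ≤ C ∧ ∀ H : ℕ, 1 ≤ H → ∀ S : Finset (Cf d),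
  S ⊆ ibox ↥(I d) H → (∀ a ∈ S, (∃ i, co a d i ≠ 0) ∧
    ¬ Irreducible (MvPolynomial.map (Int.castRingHom ℚ) (poly a))) →
  (S.card : ℝ) ≤ C * (2 * (H : ℝ) + 1) ^ (MM d - 2)

/-- **GAH.** Forms of degree `d` that violate the first genericity condition at the level
`w = H ^ (9 / 16)`. -/
def S_GAH : Prop := ∀ d : ℕ, 2 ≤ d → ∀ ε : ℝ, 0 < ε → ∃ H₀ : ℕ, ∀ H : ℕ, H₀ ≤ H →
  ∀ S : Finset (Cf d), S ⊆ ibox ↥(I d) H →
  (∀ a ∈ S, ¬ GA (co a) d H ((H : ℝ) ^ ((9 : ℝ) / 16))) →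
  (S.card : ℝ) ≤ ε * (2 * (H : ℝ) + 1) ^ (MM d - 1)

end Pool.Agent.N656.PC
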