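import Pool.Agent.N656.PC.Mds
import Pool.Agent.R414.DU.Tl

set_option autoImplicit false
set_option linter.unusedSectionVars false

/-! Plane curves with an integer point outside a fixed box. -/

open Finset

namespace Pool.Agent.N656.PC

open Pool.Agent.R414.DN Pool.Agent.R414.DS

/-- **Small points outside a box.** -/
theorem small_tail_all {d H T m : ℕ} (hd : 3 ≤ d) (hH : 1 ≤ H) (S : Finset (Cf d))
    (hS : S ⊆ ibox ↥(I d) H)
    (hz : ∀ a ∈ S, ∃ x y : ℤ, Fv (co a) d x y = 0 ∧ T < max x.natAbs y.natAbs ∧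
      max x.natAbs y.natAbs ≤ m) :
    (S.card : ℝ) ≤ 12 * 2 ^ d * (2 / ((T : ℝ) + 1) ^ (d - 2) * (2 * (H : ℝ) + 1) ^ d +
      (m : ℝ) ^ 2) * (2 * (H : ℝ) + 1) ^ (MM d - (d + 1)) := by
  classical
  have hHr : (1 : ℝ) ≤ H := by exact_mod_cast hH
  have hsub : S ⊆ (Ico T m).biUnion fun Y => (shell (Y + 1)).biUnion fun P =>
        (ibox ↥(I d) H).filter fun a => Fv (co a) d P.1 P.2 = 0 := by
    intro a ha
    have ha1 := hS ha
    obtain ⟨x, y, h0, hT, hm⟩ := hz a ha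
    rw [mem_biUnion]
    refine ⟨max x.natAbs y.natAbs - 1, ?_, ?_⟩
    · rw [mem_Ico]
      omega
    · rw [mem_biUnion]
      refine ⟨(x, y), ?_, ?_⟩
      · unfold shell
        simp only [mem_filter, mem_product, mem_Icc]
        omega
      · rw [mem_filter]
        exact ⟨ha1, h0⟩
  have hcard : S.card ≤ ∑ Y ∈ Ico T m,
      (4 * (2 * (Y + 1) + 1)) * ((2 * H / (Y + 1) + 1) ^ d * (2 * H + 1) ^ (MM d - (d + 1))) := by
    refine (card_le_card hsub).trans (card_biUnion_le.trans (sum_le_sum fun Y _ => ?_))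
    refine card_biUnion_le.trans ?_
    calc ∑ P ∈ shell (Y + 1), ((ibox ↥(I d) H).filter fun a => Fv (co a) d P.1 P.2 = 0).card
        ≤ ∑ P ∈ shell (Y + 1),
          (2 * H / (Y + 1) + 1) ^ d * (2 * H + 1) ^ (MM d - (d + 1)) :=
          sum_le_sum fun P hP => shell_bound d H (Y + 1) (Nat.succ_pos Y) P hP
      _ = (shell (Y + 1)).card * _ := by rw [sum_const, smul_eq_mul]
      _ ≤ _ := Nat.mul_le_mul_right _ (card_shell _)
  have hcast : (S.card : ℝ) ≤ ∑ Y ∈ Ico T m,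
      (4 * (2 * ((Y : ℝ) + 1) + 1)) * ((((2 * H / (Y + 1) + 1) ^ d : ℕ) : ℝ) *
        (2 * H + 1) ^ (MM d - (d + 1))) := by
    have := @Nat.cast_le ℝ _ _ _ _ |>.2 hcard
    refine this.trans (le_of_eq ?_)
    push_cast
    rfl
  refine hcast.trans ?_
  obtain ⟨B, hB⟩ : ∃ B : ℝ, B = (2 * H + 1) ^ (MM d - (d + 1)) := ⟨_, rfl⟩
  rw [← hB]
  have hB0 : 0 < B := by rw [hB]; positivity
  have hterm : ∀ Y ∈ Ico T m, (4 * (2 * ((Y : ℝ) + 1) + 1)) *
      ((((2 * H / (Y + 1) + 1) ^ d : ℕ) : ℝ) * B) ≤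
      12 * 2 ^ d * B * ((2 * H) ^ d * (1 / ((Y : ℝ) + 1) ^ (d - 2 + 1)) + (m : ℝ)) := by
    intro Y hY
    rw [mem_Ico] at hY
    have h1 := nat_div_bound d H (Y + 1) (Nat.succ_pos Y)
    push_cast at h1
    have hY1 : (1 : ℝ) ≤ (Y : ℝ) + 1 := by linarith [(Nat.cast_nonneg Y : (0 : ℝ) ≤ Y)]
    have hYH : (Y : ℝ) + 1 ≤ (m : ℝ) := by exact_mod_cast hY.2
    have h2 : (4 * (2 * ((Y : ℝ) + 1) + 1)) ≤ 12 * ((Y : ℝ) + 1) := by linarith
    have h3 : ((Y : ℝ) + 1) * (1 / ((Y : ℝ) + 1) ^ d) = 1 / ((Y : ℝ) + 1) ^ (d - 2 + 1) := by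
      obtain ⟨e, rfl⟩ : ∃ e, d = e + 3 := ⟨d - 3, by omega⟩
      have e1 : e + 3 - 2 + 1 = e + 2 := by omega
      rw [e1, pow_succ _ (e + 2)]
      field_simp
    push_cast
    calc (4 * (2 * ((Y : ℝ) + 1) + 1)) * (((2 * H / (Y + 1) : ℕ) + 1) ^ d * B)
        ≤ (12 * ((Y : ℝ) + 1)) * ((2 ^ d * ((2 * H) ^ d / ((Y : ℝ) + 1) ^ d + 1)) * B) := by
          gcongr
      _ = 12 * 2 ^ d * B * ((2 * H) ^ d * (((Y : ℝ) + 1) * (1 / ((Y : ℝ) + 1) ^ d)) +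
            ((Y : ℝ) + 1)) := by
          field_simp
      _ = 12 * 2 ^ d * B * ((2 * H) ^ d * (1 / ((Y : ℝ) + 1) ^ (d - 2 + 1)) +
            ((Y : ℝ) + 1)) := by rw [h3]
      _ ≤ _ := by gcongr
  refine (sum_le_sum hterm).trans ?_
  rw [← mul_sum, sum_add_distrib, ← mul_sum, sum_const, Nat.card_Ico, nsmul_eq_mul]
  have h1 := Pool.Agent.R414.DU.sum_tail_pow' (d - 2) (by omega) T m
  have h2 : ((m - T : ℕ) : ℝ) * (m : ℝ) ≤ (m : ℝ) ^ 2 := by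
    rw [pow_two]
    have : ((m - T : ℕ) : ℝ) ≤ m := by exact_mod_cast Nat.sub_le m T
    gcongr
  have h3 : ((2 * H : ℝ)) ^ d ≤ (2 * H + 1) ^ d := by gcongr; linarith
  calc 12 * 2 ^ d * B * ((2 * H) ^ d * ∑ Y ∈ Ico T m, 1 / ((Y : ℝ) + 1) ^ (d - 2 + 1) +
        ((m - T : ℕ) : ℝ) * (m : ℝ))
      ≤ 12 * 2 ^ d * B * ((2 * H + 1) ^ d * (2 / ((T : ℝ) + 1) ^ (d - 2)) + (m : ℝ) ^ 2) := by
        gcongr
    _ = _ := by ring

/-- forms that vanish -/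
lemma card_zero_form {d H : ℕ} (S : Finset (Cf d)) (hS : S ⊆ ibox ↥(I d) H)
    (hz : ∀ a ∈ S, ∀ i, co a d i = 0) : S.card ≤ (2 * H + 1) ^ (MM d - (d + 1)) := by
  classical
  have key := card_fiber (H := H) (S := S) hS (JT d) 1 ?_
  · rw [card_JT, one_mul] at key
    exact key
  intro b T hT hTb
  rw [card_le_one]
  intro a ha a' ha'
  funext p
  by_cases hp : p ∈ JT d
  · unfold JT at hp
    rw [mem_filter] at hp
    have h1 := hz a (hT ha) p.1.2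
    have h2 := hz a' (hT ha') p.1.2
    have h3 : (d, p.1.2) = p.1 := Prod.ext hp.2.symm rfl
    have h4 : (d, p.1.2) ∈ I d := by rw [h3]; exact p.2
    have h5 : p = ⟨(d, p.1.2), h4⟩ := Subtype.ext h3.symm
    rw [co_of_mem a h4, ← h5] at h1
    rw [co_of_mem a' h4, ← h5] at h2
    rw [h1, h2]
  · rw [hTb a ha p hp, hTb a' ha' p hp]

/-- the constant of the tail bound -/
noncomputable def KT (d : ℕ) : ℝ := 24 * 2 ^ d + 6 + 2 * C2 d

lemma C2_nonneg (d : ℕ) : 0 ≤ C2 d := by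
  have := CA_one d
  unfold C2
  positivity

/-- **Upper bound for the tail.** -/
theorem tail_main {d : ℕ} (hd : 7 ≤ d) (hRED : S_RED) (hGAH : S_GAH) (T : ℕ) :
    ∃ H₀ : ℕ, ∀ H : ℕ, H₀ ≤ H → ∀ S : Finset (Cf d), S ⊆ ibox ↥(I d) H →
      (∀ a ∈ S, ∃ x y : ℤ, Fv (co a) d x y = 0 ∧ T < max x.natAbs y.natAbs) →
      (S.card : ℝ) ≤ KT d / ((T : ℝ) + 1) ^ (d - 2) * (2 * (H : ℝ) + 1) ^ (MM d - 1) := by
  classical
  obtain ⟨η, hηd⟩ : ∃ η : ℝ, η = 1 / ((T : ℝ) + 1) ^ (d - 2) := ⟨_, rfl⟩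
  have hT1 : (1 : ℝ) ≤ (T : ℝ) + 1 := by linarith [(Nat.cast_nonneg T : (0 : ℝ) ≤ T)]
  have hη : 0 < η := by rw [hηd]; positivity
  have hη1 : η ≤ 1 := by
    rw [hηd, div_le_one (by positivity)]
    exact one_le_pow₀ hT1
  obtain ⟨CR, hCR0, hRed⟩ := hRED d (by omega)
  obtain ⟨H₁, hGah⟩ := hGAH d (by omega) η hη
  obtain ⟨G, hGd⟩ : ∃ G, G = Pool.Agent.H674R3.kG d := ⟨_, rfl⟩
  obtain ⟨N, hN⟩ : ∃ N, LargeC d G N := by
    rw [hGd]
    exact ⟨_, exists_largeC (by omega : 4 ≤ d)⟩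
  obtain ⟨C1, hC1⟩ : ∃ C1 : ℝ, C1 = 1 + (4 * d * (d + 1) ^ 2 * 9 ^ d * cS d ^ (d - 1)) + d + N :=
    ⟨_, rfl⟩
  have hC1' : 0 ≤ C1 := by rw [hC1]; exact C1_nonneg d N (cS d)
  obtain ⟨L₀, hLd⟩ : ∃ L₀ : ℝ, L₀ = G * (Real.log ((d + 1) * MM d) + 2) := ⟨_, rfl⟩
  have hM1 : (1 : ℝ) ≤ (d + 1) * MM d := by
    have h1 : 1 ≤ (d + 1) * MM d := Nat.mul_pos (Nat.succ_pos d) (by have := MM_pos d; omega)
    exact_mod_cast h1
  have hL0 : 0 ≤ L₀ := by
    rw [hLd]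
    have := Real.log_nonneg hM1
    positivity
  have hc1 := c1_pos d
  have hK := KN_one (d := d) (le_refl (1 : ℝ))
  have hA20 : 0 < A2 d := by unfold A2; positivity
  have hC20 := C2_nonneg d
  -- the threshold
  obtain ⟨R₀, hR₀⟩ : ∃ R₀ : ℝ, 2 ≤ R₀ ∧ K2 d L₀ ≤ η ^ 2 * R₀ ∧
      12 * 2 ^ d * A2 d ^ 2 ≤ η ^ 3 * R₀ ∧ CR ≤ η * R₀ ∧ C1 ≤ η * R₀ ∧ 1 ≤ η * R₀ := by
    refine ⟨max 2 (max (K2 d L₀ / η ^ 2) (max (12 * 2 ^ d * A2 d ^ 2 / η ^ 3)
      (max (CR / η) (max (C1 / η) (1 / η))))), le_max_left _ _, ?_, ?_, ?_, ?_, ?_⟩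
    · rw [← div_le_iff₀' (by positivity)]
      exact (le_max_left _ _).trans (le_max_right _ _)
    · rw [← div_le_iff₀' (by positivity)]
      exact (le_max_left _ _).trans ((le_max_right _ _).trans (le_max_right _ _))
    · rw [← div_le_iff₀' (by positivity)]
      exact (le_max_left _ _).trans ((le_max_right _ _).trans ((le_max_right _ _).trans
        (le_max_right _ _)))
    · rw [← div_le_iff₀' (by positivity)]
      exact (le_max_left _ _).trans ((le_max_right _ _).trans ((le_max_right _ _).trans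
        ((le_max_right _ _).trans (le_max_right _ _))))
    · rw [← div_le_iff₀' (by positivity)]
      exact (le_max_right _ _).trans ((le_max_right _ _).trans ((le_max_right _ _).trans
        ((le_max_right _ _).trans (le_max_right _ _))))
  obtain ⟨r2, r3, r4, r5, r6, r7⟩ := hR₀
  refine ⟨max H₁ ⌈R₀ ^ 16⌉₊, fun H hH S hS hz => ?_⟩
  have hHH₁ : H₁ ≤ H := (le_max_left _ _).trans hH
  have hHR : R₀ ^ 16 ≤ (H : ℝ) := by
    have h1 : R₀ ^ 16 ≤ (⌈R₀ ^ 16⌉₊ : ℝ) := Nat.le_ceil _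
    have h2 : ((⌈R₀ ^ 16⌉₊ : ℕ) : ℝ) ≤ H := by exact_mod_cast (le_max_right _ _).trans hH
    linarith
  have hH0' : (0 : ℝ) ≤ H := Nat.cast_nonneg H
  obtain ⟨r, hrd⟩ : ∃ r : ℝ, r = (H : ℝ) ^ ((1 : ℝ) / 16) := ⟨_, rfl⟩
  have hr0' : 0 ≤ r := by rw [hrd]; positivity
  have hr : r ^ 16 = (H : ℝ) := by
    rw [hrd, ← Real.rpow_natCast, ← Real.rpow_mul hH0']
    norm_num
  have hr9 : r ^ 9 = (H : ℝ) ^ ((9 : ℝ) / 16) := by
    rw [hrd, ← Real.rpow_natCast, ← Real.rpow_mul hH0']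
    norm_num
  have hr8 : r ^ 8 = (H : ℝ) ^ ((1 : ℝ) / 2) := by
    rw [hrd, ← Real.rpow_natCast, ← Real.rpow_mul hH0']
    norm_num
  have hRr : R₀ ≤ r := by
    by_contra hcon
    rw [not_le] at hcon
    have h1 : r ^ 16 < R₀ ^ 16 := pow_lt_pow_left₀ hcon hr0' (by norm_num)
    rw [hr] at h1
    linarith
  have hr2 : 2 ≤ r := r2.trans hRr
  have hr1 : 1 ≤ r := by linarith
  have hr0 : 0 < r := by linarith
  have hmonoη : ∀ n : ℕ, η ^ n * R₀ ≤ η ^ n * r := fun n => by gcongr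
  have s3 : K2 d L₀ ≤ η ^ 2 * r := r3.trans (hmonoη 2)
  have s4 : 12 * 2 ^ d * A2 d ^ 2 ≤ η ^ 3 * r := r4.trans (hmonoη 3)
  have hmono1 : η * R₀ ≤ η * r := by gcongr
  have s5 : CR ≤ η * r := r5.trans hmono1
  have s6 : C1 ≤ η * r := r6.trans hmono1
  have s7 : 1 ≤ η * r := r7.trans hmono1
  have hH' : (1 : ℝ) ≤ H := by
    rw [← hr]
    exact one_le_pow₀ hr1
  have hH1 : 1 ≤ H := by exact_mod_cast hH'
  have hX : (1 : ℝ) ≤ 2 * (H : ℝ) + 1 := by linarith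
  have hX0 : (0 : ℝ) < 2 * (H : ℝ) + 1 := by linarith
  have hMd := MM_pos d
  have hrH : r ≤ 2 * (H : ℝ) + 1 := by
    have h1 : r ≤ (H : ℝ) := by
      rw [← hr]
      exact le_self_pow₀ hr1 (by norm_num)
    linarith
  -- the limits
  obtain ⟨Y₀, hY₀⟩ : ∃ Y₀ : ℝ, Y₀ = A2 d * r ^ 52 / η := ⟨_, rfl⟩
  have hY₀0 : 0 < Y₀ := by rw [hY₀]; positivity
  have hY₀η : A2 d * r ^ 52 ≤ η * Y₀ := by
    rw [hY₀]
    apply le_of_eq
    field_simp
  obtain ⟨m, hm⟩ : ∃ m : ℕ, m = ⌊Y₀⌋₊ := ⟨_, rfl⟩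
  have hlog0 : 0 ≤ Real.log (Yn d H G : ℝ) := Real.log_natCast_nonneg _
  have hlog : Real.log (Yn d H G : ℝ) ≤ L₀ * r ^ 8 := by
    rw [hr8, hLd]
    exact log_Yn_le hH1
  have habs : ∀ n : ℤ, |(n : ℝ)| = ((n.natAbs : ℕ) : ℝ) := by
    intro n
    rw [← Int.cast_abs, Int.abs_eq_natAbs, Int.cast_natCast]
  have hbig : ∀ n : ℕ, m < n → Y₀ ≤ (n : ℝ) := by
    intro n hn
    rw [hm] at hn
    exact (Nat.lt_of_floor_lt hn).le
  -- the cover
  obtain ⟨S0, hS0⟩ : ∃ S0, S0 = S.filter (fun a => ∃ x y : ℤ, Fv (co a) d x y = 0 ∧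
    T < max x.natAbs y.natAbs ∧ max x.natAbs y.natAbs ≤ m) := ⟨_, rfl⟩
  obtain ⟨S1, hS1⟩ : ∃ S1, S1 = S.filter (fun a => ∀ i, co a d i = 0) := ⟨_, rfl⟩
  obtain ⟨S2, hS2⟩ : ∃ S2, S2 = S.filter (fun a => (∃ i, co a d i ≠ 0) ∧
    ¬ Irreducible (MvPolynomial.map (Int.castRingHom ℚ) (poly a))) := ⟨_, rfl⟩
  obtain ⟨S3, hS3⟩ : ∃ S3, S3 = S.filter (fun a => ¬ GA (co a) d H (r ^ 9)) := ⟨_, rfl⟩
  obtain ⟨S4, hS4⟩ : ∃ S4, S4 = S.filter (fun a => ¬ GA (co (swV a)) d H (r ^ 9)) := ⟨_, rfl⟩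
  obtain ⟨S5, hS5⟩ : ∃ S5, S5 = S.filter (fun a => GA (co a) d H (r ^ 9) ∧
    ∃ x y : ℤ, Fv (co a) d x y = 0 ∧ |x| ≤ |y| ∧ Y₀ ≤ |(y : ℝ)| ∧
      |(y : ℝ)| ≤ (Yn d H G : ℝ)) := ⟨_, rfl⟩
  obtain ⟨S6, hS6⟩ : ∃ S6, S6 = S.filter (fun a => GA (co (swV a)) d H (r ^ 9) ∧
    ∃ x y : ℤ, Fv (co (swV a)) d x y = 0 ∧ |x| ≤ |y| ∧ Y₀ ≤ |(y : ℝ)| ∧
      |(y : ℝ)| ≤ (Yn d H G : ℝ)) := ⟨_, rfl⟩
  have hsub : S ⊆ S0 ∪ (S1 ∪ (S2 ∪ (excS d H G ∪ (S3 ∪ (S4 ∪ (S5 ∪ S6)))))) := by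
    intro a ha
    rw [hS0, hS1, hS2, hS3, hS4, hS5, hS6]
    simp only [mem_union, mem_filter]
    obtain ⟨x, y, h0, hT⟩ := hz a ha
    by_cases h1 : max x.natAbs y.natAbs ≤ m
    · left
      exact ⟨ha, x, y, h0, hT, h1⟩
    by_cases h2 : ∀ i, co a d i = 0
    · exact Or.inr (Or.inl ⟨ha, h2⟩)
    push Not at h2
    by_cases h3 : Irreducible (MvPolynomial.map (Int.castRingHom ℚ) (poly a))
    swap
    · exact Or.inr (Or.inr (Or.inl ⟨ha, h2, h3⟩))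
    by_cases h4 : max x.natAbs y.natAbs ≤ Yn d H G
    swap
    · right; right; right; left
      rw [mem_excS]
      refine ⟨hS ha, h3, x, y, h0, ?_⟩
      refine lt_of_le_of_lt ?_ (not_le.1 h4)
      unfold Yn
      apply Nat.pow_le_pow_left
      exact Nat.mul_le_mul_left _ (len_poly (hS ha))
    by_cases h5 : GA (co a) d H (r ^ 9)
    swap
    · right; right; right; right; left
      exact ⟨ha, h5⟩
    by_cases h6 : GA (co (swV a)) d H (r ^ 9)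
    swap
    · right; right; right; right; right; left
      exact ⟨ha, h6⟩
    rw [not_le] at h1
    right; right; right; right; right; right
    rcases le_total x.natAbs y.natAbs with h7 | h7
    · left
      rw [max_eq_right h7] at h1 h4
      refine ⟨ha, h5, x, y, h0, ?_, ?_, ?_⟩
      · rw [Int.abs_eq_natAbs, Int.abs_eq_natAbs]
        exact_mod_cast h7
      · rw [habs]
        exact hbig _ h1
      · rw [habs]
        exact_mod_cast h4
    · right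
      rw [max_eq_left h7] at h1 h4
      refine ⟨ha, h6, y, x, ?_, ?_, ?_, ?_⟩
      · rw [Fv_swV]
        exact h0
      · rw [Int.abs_eq_natAbs, Int.abs_eq_natAbs]
        exact_mod_cast h7
      · rw [habs]
        exact hbig _ h1
      · rw [habs]
        exact_mod_cast h4
  obtain ⟨Z, hZ⟩ : ∃ Z : ℝ, Z = (2 * (H : ℝ) + 1) ^ (MM d - 1) := ⟨_, rfl⟩
  have hZ0 : 0 < Z := by rw [hZ]; positivity
  have hZ2 : (2 * (H : ℝ) + 1) ^ (MM d - 2) * r ≤ Z := by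
    have e1 : Z = (2 * (H : ℝ) + 1) ^ (MM d - 2) * (2 * (H : ℝ) + 1) := by
      rw [hZ, ← pow_succ]
      congr 1
      omega
    rw [e1]
    gcongr
  have hlow : ∀ C : ℝ, 0 ≤ C → C ≤ η * r → C * (2 * (H : ℝ) + 1) ^ (MM d - 2) ≤ η * Z := by
    intro C _ hC
    calc C * (2 * (H : ℝ) + 1) ^ (MM d - 2) ≤ (η * r) * (2 * (H : ℝ) + 1) ^ (MM d - 2) := by
          gcongr
      _ = η * ((2 * (H : ℝ) + 1) ^ (MM d - 2) * r) := by ring
      _ ≤ η * Z := by gcongr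
  -- the parts
  have b0 : (S0.card : ℝ) ≤ (24 * 2 ^ d + 1) * η * Z := by
    have h1 := small_tail_all (T := T) (m := m) (by omega : 3 ≤ d) hH1 S0
      (by rw [hS0]; exact (filter_subset _ _).trans hS)
      (by intro a ha; rw [hS0] at ha; exact (mem_filter.1 ha).2)
    refine h1.trans ?_
    have e1 : Z = (2 * (H : ℝ) + 1) ^ d * (2 * (H : ℝ) + 1) ^ (MM d - (d + 1)) := by
      rw [hZ, ← pow_add]
      congr 1
      omega
    have e2 : 2 / ((T : ℝ) + 1) ^ (d - 2) = 2 * η := by rw [hηd]; ring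
    have e3 : 12 * 2 ^ d * (m : ℝ) ^ 2 ≤ η * (2 * (H : ℝ) + 1) ^ d := by
      have h2 : (m : ℝ) ≤ Y₀ := by rw [hm]; exact Nat.floor_le hY₀0.le
      calc 12 * 2 ^ d * (m : ℝ) ^ 2 ≤ 12 * 2 ^ d * Y₀ ^ 2 := by gcongr
        _ = (12 * 2 ^ d * A2 d ^ 2) * r ^ 104 / η ^ 2 := by
            rw [hY₀, div_pow]
            ring
        _ ≤ (η ^ 3 * r) * r ^ 104 / η ^ 2 := by gcongr
        _ = η * r ^ 105 := by
            field_simp
        _ ≤ η * r ^ 112 := by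
            have : r ^ 105 ≤ r ^ 112 := pow_le_pow_right₀ hr1 (by norm_num)
            gcongr
        _ = η * (H : ℝ) ^ 7 := by
            rw [← hr]
            ring
        _ ≤ η * (2 * (H : ℝ) + 1) ^ 7 := by
            gcongr
            linarith
        _ ≤ η * (2 * (H : ℝ) + 1) ^ d := by
            have : (2 * (H : ℝ) + 1) ^ 7 ≤ (2 * (H : ℝ) + 1) ^ d := pow_le_pow_right₀ hX hd
            gcongr
    rw [e2]
    calc 12 * 2 ^ d * (2 * η * (2 * (H : ℝ) + 1) ^ d + (m : ℝ) ^ 2) *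
          (2 * (H : ℝ) + 1) ^ (MM d - (d + 1))
        = (24 * 2 ^ d * η * (2 * (H : ℝ) + 1) ^ d + 12 * 2 ^ d * (m : ℝ) ^ 2) *
          (2 * (H : ℝ) + 1) ^ (MM d - (d + 1)) := by ring
      _ ≤ (24 * 2 ^ d * η * (2 * (H : ℝ) + 1) ^ d + η * (2 * (H : ℝ) + 1) ^ d) *
          (2 * (H : ℝ) + 1) ^ (MM d - (d + 1)) := by gcongr
      _ = _ := by
          rw [e1]
          ring
  have b1 : (S1.card : ℝ) ≤ η * Z := by
    have h1 := card_zero_form S1 (by rw [hS1]; exact (filter_subset _ _).trans hS)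
      (by intro a ha; rw [hS1] at ha; exact (mem_filter.1 ha).2)
    have h2 : (S1.card : ℝ) ≤ (2 * (H : ℝ) + 1) ^ (MM d - (d + 1)) := by exact_mod_cast h1
    refine h2.trans (le_trans ?_ (hlow 1 (by norm_num) s7))
    rw [one_mul]
    exact pow_le_pow_right₀ hX (by omega)
  have b2 : (S2.card : ℝ) ≤ η * Z := by
    have h1 := hRed H hH1 S2 (by rw [hS2]; exact (filter_subset _ _).trans hS)
      (by intro a ha; rw [hS2] at ha; exact (mem_filter.1 ha).2)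
    exact h1.trans (hlow CR hCR0 s5)
  have b2' : ((excS d H G).card : ℝ) ≤ η * Z := by
    have h1 := card_excS hN (by omega : 5 ≤ d) hH1
    rw [← hC1] at h1
    exact h1.trans (hlow C1 hC1' s6)
  have b3 : (S3.card : ℝ) ≤ η * Z := by
    rw [hZ]
    apply hGah H hHH₁ S3 (by rw [hS3]; exact (filter_subset _ _).trans hS)
    intro a ha
    rw [hS3] at ha
    rw [← hr9]
    exact (mem_filter.1 ha).2
  have b4 : (S4.card : ℝ) ≤ η * Z := by
    have h1 := hGah H hHH₁ (S4.image swV) (by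
      intro b hb
      rw [mem_image] at hb
      obtain ⟨a, ha, rfl⟩ := hb
      rw [hS4] at ha
      exact swV_mem (hS (mem_filter.1 ha).1)) (by
      intro b hb
      rw [mem_image] at hb
      obtain ⟨a, ha, rfl⟩ := hb
      rw [hS4] at ha
      rw [← hr9]
      exact (mem_filter.1 ha).2)
    rw [card_image_of_injective _ swV_inj, ← hZ] at h1
    exact h1
  have b5 : (S5.card : ℝ) ≤ C2 d * η * Z := by
    rw [hZ]
    exact mid_small hd hr hr2 hη hη1 hL0 s3 hY₀η hlog0 hlog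
      (S := S5) (by rw [hS5]; exact (filter_subset _ _).trans hS)
      (by intro a ha; rw [hS5] at ha; exact (mem_filter.1 ha).2.1)
      (by intro a ha; rw [hS5] at ha; exact (mem_filter.1 ha).2.2)
  have b6 : (S6.card : ℝ) ≤ C2 d * η * Z := by
    have h1 := mid_small hd hr hr2 hη hη1 hL0 s3 hY₀η hlog0 hlog
      (S := S6.image swV) (by
      intro b hb
      rw [mem_image] at hb
      obtain ⟨a, ha, rfl⟩ := hb
      rw [hS6] at ha
      exact swV_mem (hS (mem_filter.1 ha).1)) (by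
      intro b hb
      rw [mem_image] at hb
      obtain ⟨a, ha, rfl⟩ := hb
      rw [hS6] at ha
      exact (mem_filter.1 ha).2.1) (by
      intro b hb
      rw [mem_image] at hb
      obtain ⟨a, ha, rfl⟩ := hb
      rw [hS6] at ha
      exact (mem_filter.1 ha).2.2)
    rw [card_image_of_injective _ swV_inj, ← hZ] at h1
    exact h1
  have hcard := (card_le_card hsub).trans ((card_union_le _ _).trans (add_le_add le_rfl
    ((card_union_le _ _).trans (add_le_add le_rfl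
    ((card_union_le _ _).trans (add_le_add le_rfl
    ((card_union_le _ _).trans (add_le_add le_rfl
    ((card_union_le _ _).trans (add_le_add le_rfl
    ((card_union_le _ _).trans (add_le_add le_rfl (card_union_le _ _)))))))))))))
  have hcard' := (Nat.cast_le (α := ℝ)).2 hcard
  simp only [Nat.cast_add] at hcard'
  have e : KT d / ((T : ℝ) + 1) ^ (d - 2) * (2 * (H : ℝ) + 1) ^ (MM d - 1) =
      (24 * 2 ^ d + 1) * η * Z + η * Z + η * Z + η * Z + η * Z + η * Z + C2 d * η * Z +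
      C2 d * η * Z := by
    rw [← hZ, hηd]
    unfold KT
    ring
  rw [e]
  linarith

end Pool.Agent.N656.PC
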